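import Mathlib

/-!
# Combinatorial core: placements of jobs in slots and exactly-one systems

Slots are pairs `(a, b)`, `a < 2 * C` (phase), `b < n` (position in the phase). The jobs are
`(k, i, y)`, `k < 2 * C`, `i < n`, `y < 4`.
-/

set_option autoImplicit false

namespace Pool.Agent.Helper61.Sched

open Classical

/-- base length of register jobs -/
def rb (k : ℕ) : ℕ := if k % 2 = 0 then 20 else 40

/-- base length of messenger jobs -/
def mb (i : ℕ) : ℕ := if i % 2 = 0 then 10 else 5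

/-- length of the job `(k, i, y)` -/
def len (k i y : ℕ) : ℕ :=
  if y = 0 then rb k else if y = 1 then rb k + 1 else if y = 2 then mb i else mb i + 2

/-- variable of the slot `(k, i)` -/
def vr (n k i : ℕ) : ℕ := if k % 2 = 0 then i else n - 1 - i

/-- capacity offset of the slot `(k, i)` -/
noncomputable def cc (n : ℕ) (mem : ℕ → ℕ → Prop) (k i : ℕ) : ℕ :=
  if mem (k / 2) (vr n k i) then (if k % 2 = 0 then 2 else 4) else 3

/-- partner slot of the register pair `(k, i)` -/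
def pr (n C k i : ℕ) : ℕ × ℕ := if k + 1 < 2 * C then (k + 1, n - 1 - i) else (0, n - 1 - i)

/-- next slot -/
def nx (n C k i : ℕ) : ℕ × ℕ :=
  if i + 1 < n then (k, i + 1) else if k + 1 < 2 * C then (k + 1, 0) else (0, 0)

/-- windows -/
def InWin (n C k i y : ℕ) (s : ℕ × ℕ) : Prop :=
  if y < 2 then
    (if k + 1 < 2 * C then (s.1 = k ∧ i ≤ s.2) ∨ (s.1 = k + 1 ∧ s.2 ≤ n - 1 - i)
      else ((s.1 = 0 ∧ n - 1 - i ≤ s.2) ∨ 0 < s.1) ∧ (s.1 = k → s.2 ≤ i))
  else if i + 1 < n then s = (k, i) ∨ s = (k, i + 1)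
  else if (y = 2 ↔ k % 2 = 0) then s = (k, i) else s = nx n C k i

/-- A placement: each job is put into a slot of its window, within the capacities. -/
structure Plc (n C : ℕ) (mem : ℕ → ℕ → Prop) (pos : ℕ → ℕ → ℕ → ℕ × ℕ) : Prop where
  valid : ∀ k < 2 * C, ∀ i < n, ∀ y < 4, (pos k i y).1 < 2 * C ∧ (pos k i y).2 < n
  win : ∀ k < 2 * C, ∀ i < n, ∀ y < 4, InWin n C k i y (pos k i y)
  vol : ∀ a < 2 * C, ∀ b < n, ∀ A : Finset (ℕ × ℕ × ℕ),
    (∀ j ∈ A, j.1 < 2 * C ∧ j.2.1 < n ∧ j.2.2 < 4 ∧ pos j.1 j.2.1 j.2.2 = (a, b)) →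
    ∑ j ∈ A, len j.1 j.2.1 j.2.2 ≤ 75 + cc n mem a b

theorem cc_le (n : ℕ) (mem : ℕ → ℕ → Prop) (k i : ℕ) : cc n mem k i ≤ 4 := by
  unfold cc; split_ifs <;> omega

section

variable {n C : ℕ} {mem : ℕ → ℕ → Prop} {pos : ℕ → ℕ → ℕ → ℕ × ℕ}

/-- At most one register job of parity `π` in each slot. -/
def AMR (n C π : ℕ) (pos : ℕ → ℕ → ℕ → ℕ × ℕ) : Prop :=
  ∀ k k' i i' y y', k < 2 * C → k' < 2 * C → i < n → i' < n → y < 2 → y' < 2 →
    k % 2 = π → k' % 2 = π → pos k i y = pos k' i' y' → k = k' ∧ i = i' ∧ y = y'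

/-- The two register jobs of the pair `(k, i)` sit in the two end slots. -/
def Loc (n C : ℕ) (pos : ℕ → ℕ → ℕ → ℕ × ℕ) (k i : ℕ) : Prop :=
  (pos k i 0 = (k, i) ∧ pos k i 1 = pr n C k i) ∨ (pos k i 1 = (k, i) ∧ pos k i 0 = pr n C k i)

theorem Loc.own {k i : ℕ} (h : Loc n C pos k i) : ∃ y < 2, pos k i y = (k, i) := by
  rcases h with h | h
  · exact ⟨0, by norm_num, h.1⟩
  · exact ⟨1, by norm_num, h.1⟩

theorem Loc.other {k i : ℕ} (h : Loc n C pos k i) : ∃ y < 2, pos k i y = pr n C k i := by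
  rcases h with h | h
  · exact ⟨1, by norm_num, h.2⟩
  · exact ⟨0, by norm_num, h.2⟩

theorem loc_of_mem {π k i : ℕ} (hA : AMR n C π pos) (hk : k < 2 * C) (hi : i < n)
    (hπ : k % 2 = π) (h : ∀ y < 2, pos k i y = (k, i) ∨ pos k i y = pr n C k i) :
    Loc n C pos k i := by
  have h0 := h 0 (by norm_num)
  have h1 := h 1 (by norm_num)
  have hne : pos k i 0 ≠ pos k i 1 := by
    intro e
    have := (hA k k i i 0 1 hk hk hi hi (by norm_num) (by norm_num) hπ hπ e).2.2
    omega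
  rcases h0 with h0 | h0 <;> rcases h1 with h1 | h1
  · exact absurd (h0.trans h1.symm) hne
  · exact Or.inl ⟨h0, h1⟩
  · exact Or.inr ⟨h1, h0⟩
  · exact absurd (h0.trans h1.symm) hne

theorem loc_normal {π : ℕ} (h : Plc n C mem pos) (hA : AMR n C π pos) {k : ℕ}
    (hk : k + 1 < 2 * C) (hπ : k % 2 = π) : ∀ d i, i < n → n - 1 - i = d → Loc n C pos k i := by
  intro d
  induction d using Nat.strong_induction_on with
  | _ d ih =>
    intro i hi hd
    have hk' : k < 2 * C := by omega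
    apply loc_of_mem hA hk' hi hπ
    intro y hy
    have hw := h.win k hk' i hi y (by omega)
    have hv := h.valid k hk' i hi y (by omega)
    unfold InWin at hw
    rw [if_pos hy, if_pos hk] at hw
    have hpr : pr n C k i = (k + 1, n - 1 - i) := if_pos hk
    rcases hw with ⟨h1, h2⟩ | ⟨h1, h2⟩
    · rcases Nat.lt_or_ge i (pos k i y).2 with hlt | hge
      · exfalso
        obtain ⟨y', hy', e⟩ := (ih (n - 1 - (pos k i y).2) (by omega) (pos k i y).2 hv.2 rfl).own
        have e' : pos k i y = pos k (pos k i y).2 y' := by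
          rw [e]; exact Prod.ext h1 rfl
        have := (hA k k i _ y y' hk' hk' hi hv.2 hy hy' hπ hπ e').2.1
        omega
      · left
        exact Prod.ext h1 (by simp only; omega)
    · rcases Nat.lt_or_ge (pos k i y).2 (n - 1 - i) with hlt | hge
      · exfalso
        have hlt' : n - 1 - (pos k i y).2 < n := by omega
        obtain ⟨y', hy', e⟩ := (ih (n - 1 - (n - 1 - (pos k i y).2)) (by omega)
          (n - 1 - (pos k i y).2) hlt' rfl).other
        have e' : pos k i y = pos k (n - 1 - (pos k i y).2) y' := by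
          rw [e]
          unfold pr
          rw [if_pos hk]
          exact Prod.ext h1 (by simp only; omega)
        have := (hA k k i _ y y' hk' hk' hi hlt' hy hy' hπ hπ e').2.1
        omega
      · right
        rw [hpr]
        exact Prod.ext h1 (by simp only; omega)

theorem loc_wrap (h : Plc n C mem pos) (hA : AMR n C 1 pos) (hC : 0 < C) :
    ∀ i, i < n → Loc n C pos (2 * C - 1) i := by
  intro i
  induction i using Nat.strong_induction_on with
  | _ i ih =>
    intro hi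
    have hk' : 2 * C - 1 < 2 * C := by omega
    have hπ : (2 * C - 1) % 2 = 1 := by omega
    apply loc_of_mem hA hk' hi hπ
    intro y hy
    have hw := h.win _ hk' i hi y (by omega)
    have hv := h.valid _ hk' i hi y (by omega)
    unfold InWin at hw
    rw [if_pos hy, if_neg (by omega)] at hw
    have hpr : ∀ i, pr n C (2 * C - 1) i = (0, n - 1 - i) := fun i => if_neg (by omega)
    obtain ⟨hw1, hw2⟩ := hw
    rcases Nat.eq_zero_or_pos (pos (2 * C - 1) i y).1 with h0 | h0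
    · have h2 : n - 1 - i ≤ (pos (2 * C - 1) i y).2 := by
        rcases hw1 with hw1 | hw1
        · exact hw1.2
        · omega
      rcases Nat.lt_or_ge (n - 1 - i) (pos (2 * C - 1) i y).2 with hlt | hge
      · exfalso
        have hlt' : n - 1 - (pos (2 * C - 1) i y).2 < n := by omega
        obtain ⟨y', hy', e⟩ := (ih (n - 1 - (pos (2 * C - 1) i y).2) (by omega) hlt').other
        have e' : pos (2 * C - 1) i y = pos (2 * C - 1) (n - 1 - (pos (2 * C - 1) i y).2) y' := by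
          rw [e, hpr]
          exact Prod.ext h0 (by simp only; omega)
        have := (hA _ _ i _ y y' hk' hk' hi hlt' hy hy' hπ hπ e').2.1
        omega
      · right
        rw [hpr]
        exact Prod.ext h0 (by simp only; omega)
    · rcases Nat.lt_or_ge (pos (2 * C - 1) i y).1 (2 * C - 1) with hlt | hge
      · exfalso
        rcases Nat.mod_two_eq_zero_or_one (pos (2 * C - 1) i y).1 with hp | hp
        · -- even phase: the pair before
          have hlt' : n - 1 - (pos (2 * C - 1) i y).2 < n := by omega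
          have hL := loc_normal (k := (pos (2 * C - 1) i y).1 - 1) h hA (by omega) (by omega) _
            (n - 1 - (pos (2 * C - 1) i y).2) hlt' rfl
          obtain ⟨y', hy', e⟩ := hL.other
          have e' : pos (2 * C - 1) i y = pos ((pos (2 * C - 1) i y).1 - 1)
              (n - 1 - (pos (2 * C - 1) i y).2) y' := by
            rw [e]
            unfold pr
            rw [if_pos (by omega)]
            exact Prod.ext (by simp only; omega) (by simp only; omega)
          have := (hA _ _ i _ y y' hk' (by omega) hi hlt' hy hy' hπ (by omega) e').1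
          omega
        · have hL := loc_normal (k := (pos (2 * C - 1) i y).1) h hA (by omega) (by omega) _
            (pos (2 * C - 1) i y).2 hv.2 rfl
          obtain ⟨y', hy', e⟩ := hL.own
          have e' : pos (2 * C - 1) i y = pos ((pos (2 * C - 1) i y).1)
              (pos (2 * C - 1) i y).2 y' := by
            rw [e]
          have := (hA _ _ i _ y y' hk' (by omega) hi hv.2 hy hy' hπ (by omega) e').1
          omega
      · have h1 : (pos (2 * C - 1) i y).1 = 2 * C - 1 := by omega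
        have h2 := hw2 h1
        rcases Nat.lt_or_ge (pos (2 * C - 1) i y).2 i with hlt | hge
        · exfalso
          obtain ⟨y', hy', e⟩ := (ih _ hlt hv.2).own
          have e' : pos (2 * C - 1) i y = pos (2 * C - 1) (pos (2 * C - 1) i y).2 y' := by
            rw [e]; exact Prod.ext h1 rfl
          have := (hA _ _ i _ y y' hk' hk' hi hv.2 hy hy' hπ hπ e').2.1
          omega
        · left
          exact Prod.ext h1 (by simp only; omega)

theorem loc_reg {π : ℕ} (h : Plc n C mem pos) (hA : AMR n C π pos) (hC : 0 < C)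
    {k : ℕ} (hk : k < 2 * C) (hπ : k % 2 = π) {i : ℕ} (hi : i < n) : Loc n C pos k i := by
  rcases Nat.lt_or_ge (k + 1) (2 * C) with h1 | h1
  · exact loc_normal h hA h1 hπ _ i hi rfl
  · have e : k = 2 * C - 1 := by omega
    subst e
    have : π = 1 := by omega
    subst this
    exact loc_wrap h hA hC i hi

/-- phase before (cyclically) -/
def pv (C k : ℕ) : ℕ := if k = 0 then 2 * C - 1 else k - 1

theorem pr_pv (hC : 0 < C) {a b : ℕ} (ha : a < 2 * C) (hb : b < n) :
    pr n C (pv C a) (n - 1 - b) = (a, b) := by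
  unfold pr pv
  have h1 : n - 1 - (n - 1 - b) = b := by omega
  split_ifs with h0 h2 h2
  · omega
  · rw [h1, h0]
  · rw [h1]; exact Prod.ext (by simp only; omega) rfl
  · omega

theorem pv_lt (hC : 0 < C) {a : ℕ} (ha : a < 2 * C) : pv C a < 2 * C := by
  unfold pv; split_ifs <;> omega

theorem pv_mod (hC : 0 < C) {a : ℕ} (ha : a < 2 * C) : pv C a % 2 = 1 - a % 2 := by
  unfold pv; split_ifs <;> omega

/-- each slot contains a register job of parity `π` -/
theorem occ_reg {π : ℕ} (hπ' : π < 2) (h : Plc n C mem pos) (hA : AMR n C π pos) (hC : 0 < C)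
    {a b : ℕ} (ha : a < 2 * C) (hb : b < n) :
    ∃ k i y, k < 2 * C ∧ i < n ∧ y < 2 ∧ k % 2 = π ∧ pos k i y = (a, b) := by
  by_cases e : a % 2 = π
  · obtain ⟨y, hy, e'⟩ := (loc_reg h hA hC ha e hb).own
    exact ⟨a, b, y, ha, hb, hy, e, e'⟩
  · have hk := pv_lt hC ha
    have hm := pv_mod hC ha
    have hb' : n - 1 - b < n := by omega
    obtain ⟨y, hy, e'⟩ := (loc_reg h hA hC hk (by omega) hb').other
    exact ⟨_, _, y, hk, hb', hy, by omega, e'.trans (pr_pv hC ha hb)⟩

theorem len_reg {k i y : ℕ} (hy : y < 2) : rb k ≤ len k i y := by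
  unfold len
  split_ifs <;> omega

theorem len_mes {k i y : ℕ} (hy : 2 ≤ y) : mb i ≤ len k i y := by
  unfold len
  split_ifs <;> omega

theorem rb_even {k : ℕ} (h : k % 2 = 0) : rb k = 20 := if_pos h
theorem rb_odd {k : ℕ} (h : k % 2 = 1) : rb k = 40 := if_neg (by omega)
theorem mb_even {k : ℕ} (h : k % 2 = 0) : mb k = 10 := if_pos h
theorem mb_odd {k : ℕ} (h : k % 2 = 1) : mb k = 5 := if_neg (by omega)

theorem amr_one (h : Plc n C mem pos) : AMR n C 1 pos := by
  intro k k' i i' y y' hk hk' hi hi' hy hy' hπ hπ' e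
  by_contra hne
  have hv := h.valid k hk i hi y (by omega)
  have hne' : ((k, i, y) : ℕ × ℕ × ℕ) ≠ (k', i', y') := by
    intro e'
    simp only [Prod.mk.injEq] at e'
    exact hne e'
  have h1 := h.vol _ hv.1 _ hv.2 {(k, i, y), (k', i', y')} (by
    intro j hj
    simp only [Finset.mem_insert, Finset.mem_singleton] at hj
    rcases hj with rfl | rfl
    · exact ⟨hk, hi, by simp only; omega, rfl⟩
    · exact ⟨hk', hi', by simp only; omega, e.symm⟩)
  rw [Finset.sum_pair hne'] at h1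
  have h2 := len_reg (k := k) (i := i) hy
  have h3 := len_reg (k := k') (i := i') hy'
  rw [rb_odd hπ] at h2
  rw [rb_odd hπ'] at h3
  have h4 := cc_le n mem (pos k i y).1 (pos k i y).2
  simp only at h1
  omega

theorem amr_zero (h : Plc n C mem pos) (hC : 0 < C) : AMR n C 0 pos := by
  intro k k' i i' y y' hk hk' hi hi' hy hy' hπ hπ' e
  by_contra hne
  have hv := h.valid k hk i hi y (by omega)
  obtain ⟨k₁, i₁, y₁, hk₁, hi₁, hy₁, hπ₁, e₁⟩ := occ_reg (by norm_num) h (amr_one h) hC hv.1 hv.2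
  have hne' : ((k, i, y) : ℕ × ℕ × ℕ) ≠ (k', i', y') := by
    intro e'
    simp only [Prod.mk.injEq] at e'
    exact hne e'
  have hne₁ : ((k₁, i₁, y₁) : ℕ × ℕ × ℕ) ∉ ({(k, i, y), (k', i', y')} : Finset (ℕ × ℕ × ℕ)) := by
    simp only [Finset.mem_insert, Finset.mem_singleton, Prod.mk.injEq, not_or]
    constructor <;> (rintro ⟨rfl, -, -⟩; omega)
  have h1 := h.vol _ hv.1 _ hv.2 (insert (k₁, i₁, y₁) {(k, i, y), (k', i', y')}) (by
    intro j hj
    simp only [Finset.mem_insert, Finset.mem_singleton] at hj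
    rcases hj with rfl | rfl | rfl
    · exact ⟨hk₁, hi₁, by simp only; omega, e₁⟩
    · exact ⟨hk, hi, by simp only; omega, rfl⟩
    · exact ⟨hk', hi', by simp only; omega, e.symm⟩)
  rw [Finset.sum_insert hne₁, Finset.sum_pair hne'] at h1
  have h2 := len_reg (k := k) (i := i) hy
  have h3 := len_reg (k := k') (i := i') hy'
  have h5 := len_reg (k := k₁) (i := i₁) hy₁
  rw [rb_even hπ] at h2
  rw [rb_even hπ'] at h3
  rw [rb_odd hπ₁] at h5
  have h4 := cc_le n mem (pos k i y).1 (pos k i y).2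
  simp only at h1
  omega

/-- At most one messenger job of parity `π` in each slot. -/
def AMM (n C π : ℕ) (pos : ℕ → ℕ → ℕ → ℕ × ℕ) : Prop :=
  ∀ k k' i i' y y', k < 2 * C → k' < 2 * C → i < n → i' < n → 2 ≤ y → 2 ≤ y' → y < 4 → y' < 4 →
    i % 2 = π → i' % 2 = π → pos k i y = pos k' i' y' → k = k' ∧ i = i' ∧ y = y'

/-- The two messenger jobs of the pair `(k, i)` sit in the two end slots. -/
def LocM (n C : ℕ) (pos : ℕ → ℕ → ℕ → ℕ × ℕ) (k i : ℕ) : Prop :=
  (pos k i 2 = (k, i) ∧ pos k i 3 = nx n C k i) ∨ (pos k i 3 = (k, i) ∧ pos k i 2 = nx n C k i)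

theorem locM_of {π : ℕ} (h : Plc n C mem pos) (hA : AMM n C π pos)
    {k : ℕ} (hk : k < 2 * C) {i : ℕ} (hi : i < n) (hπ : i % 2 = π) : LocM n C pos k i := by
  have hw2 := h.win k hk i hi 2 (by omega)
  have hw3 := h.win k hk i hi 3 (by omega)
  have hne : pos k i 2 ≠ pos k i 3 := by
    intro e
    have := (hA k k i i 2 3 hk hk hi hi (by norm_num) (by norm_num) (by norm_num) (by norm_num)
      hπ hπ e).2.2
    omega
  unfold InWin at hw2 hw3
  rw [if_neg (by norm_num)] at hw2 hw3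
  by_cases h1 : i + 1 < n
  · rw [if_pos h1] at hw2 hw3
    have hnx : nx n C k i = (k, i + 1) := if_pos h1
    unfold LocM
    rw [hnx]
    rcases hw2 with h2 | h2 <;> rcases hw3 with h3 | h3
    · exact absurd (h2.trans h3.symm) hne
    · exact Or.inl ⟨h2, h3⟩
    · exact Or.inr ⟨h3, h2⟩
    · exact absurd (h2.trans h3.symm) hne
  · rw [if_neg h1] at hw2 hw3
    by_cases hp : k % 2 = 0
    · rw [if_pos (by simp [hp])] at hw2
      rw [if_neg (by simp [hp])] at hw3
      exact Or.inl ⟨hw2, hw3⟩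
    · rw [if_neg (by simp [hp])] at hw2
      rw [if_pos (by simp [hp])] at hw3
      exact Or.inr ⟨hw3, hw2⟩

/-- previous slot -/
def pvs (n C a b : ℕ) : ℕ × ℕ := if b = 0 then (pv C a, n - 1) else (a, b - 1)

theorem nx_pvs (hC : 0 < C) {a b : ℕ} (ha : a < 2 * C) (hb : b < n) :
    nx n C (pvs n C a b).1 (pvs n C a b).2 = (a, b) := by
  unfold pvs
  by_cases h0 : b = 0
  · rw [if_pos h0]
    unfold nx pv
    simp only
    rw [if_neg (by omega)]
    split_ifs with h1 h2 h2
    · omega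
    · rw [h0, h1]
    · rw [h0]; exact Prod.ext (by simp only; omega) rfl
    · omega
  · rw [if_neg h0]
    unfold nx
    simp only
    rw [if_pos (by omega)]
    exact Prod.ext rfl (by simp only; omega)

theorem pvs_lt (hC : 0 < C) {a b : ℕ} (ha : a < 2 * C) (hb : b < n) :
    (pvs n C a b).1 < 2 * C ∧ (pvs n C a b).2 < n := by
  unfold pvs
  split_ifs with h0
  · exact ⟨pv_lt hC ha, by simp only; omega⟩
  · exact ⟨ha, by simp only; omega⟩

theorem pvs_mod (hn : n % 2 = 0) {a b : ℕ} (hb : b < n) : (pvs n C a b).2 % 2 = 1 - b % 2 := by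
  unfold pvs
  split_ifs with h0 <;> simp only <;> omega

theorem occ_mes {π : ℕ} (hπ' : π < 2) (h : Plc n C mem pos) (hA : AMM n C π pos) (hC : 0 < C)
    (hn : n % 2 = 0) {a b : ℕ} (ha : a < 2 * C) (hb : b < n) :
    ∃ k i y, k < 2 * C ∧ i < n ∧ 2 ≤ y ∧ y < 4 ∧ i % 2 = π ∧ pos k i y = (a, b) := by
  by_cases e : b % 2 = π
  · rcases locM_of h hA ha hb e with ⟨e', -⟩ | ⟨e', -⟩
    · exact ⟨a, b, 2, ha, hb, by norm_num, by norm_num, e, e'⟩
    · exact ⟨a, b, 3, ha, hb, by norm_num, by norm_num, e, e'⟩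
  · have hl := pvs_lt (n := n) hC ha hb
    have hm := pvs_mod (C := C) hn (a := a) hb
    rcases locM_of h hA hl.1 hl.2 (by omega) with ⟨-, e'⟩ | ⟨-, e'⟩
    · exact ⟨_, _, 3, hl.1, hl.2, by norm_num, by norm_num, by omega, e'.trans (nx_pvs hC ha hb)⟩
    · exact ⟨_, _, 2, hl.1, hl.2, by norm_num, by norm_num, by omega, e'.trans (nx_pvs hC ha hb)⟩

theorem amm_zero (h : Plc n C mem pos) (hC : 0 < C) : AMM n C 0 pos := by
  intro k k' i i' y y' hk hk' hi hi' hy hy' hy4 hy4' hπ hπ' e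
  by_contra hne
  have hv := h.valid k hk i hi y hy4
  obtain ⟨k₁, i₁, y₁, hk₁, hi₁, hy₁, hπ₁, e₁⟩ := occ_reg (by norm_num) h (amr_one h) hC hv.1 hv.2
  obtain ⟨k₂, i₂, y₂, hk₂, hi₂, hy₂, hπ₂, e₂⟩ :=
    occ_reg (by norm_num) h (amr_zero h hC) hC hv.1 hv.2
  have hne' : ((k, i, y) : ℕ × ℕ × ℕ) ≠ (k', i', y') := by
    intro e'
    simp only [Prod.mk.injEq] at e'
    exact hne e'
  have hne₁ : ((k₁, i₁, y₁) : ℕ × ℕ × ℕ) ∉ ({(k, i, y), (k', i', y')} : Finset (ℕ × ℕ × ℕ)) := by
    simp only [Finset.mem_insert, Finset.mem_singleton, Prod.mk.injEq, not_or]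
    constructor <;> (rintro ⟨-, -, rfl⟩; omega)
  have hne₂ : ((k₂, i₂, y₂) : ℕ × ℕ × ℕ) ∉
      (insert (k₁, i₁, y₁) {(k, i, y), (k', i', y')} : Finset (ℕ × ℕ × ℕ)) := by
    simp only [Finset.mem_insert, Finset.mem_singleton, Prod.mk.injEq, not_or]
    refine ⟨?_, ?_, ?_⟩
    · rintro ⟨rfl, -, -⟩; omega
    · rintro ⟨-, -, rfl⟩; omega
    · rintro ⟨-, -, rfl⟩; omega
  have h1 := h.vol _ hv.1 _ hv.2
    (insert (k₂, i₂, y₂) (insert (k₁, i₁, y₁) {(k, i, y), (k', i', y')})) (by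
    intro j hj
    simp only [Finset.mem_insert, Finset.mem_singleton] at hj
    rcases hj with rfl | rfl | rfl | rfl
    · exact ⟨hk₂, hi₂, by simp only; omega, e₂⟩
    · exact ⟨hk₁, hi₁, by simp only; omega, e₁⟩
    · exact ⟨hk, hi, by simp only; omega, rfl⟩
    · exact ⟨hk', hi', by simp only; omega, e.symm⟩)
  rw [Finset.sum_insert hne₂, Finset.sum_insert hne₁, Finset.sum_pair hne'] at h1
  have h2 := len_mes (k := k) (i := i) hy
  have h3 := len_mes (k := k') (i := i') hy'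
  have h5 := len_reg (k := k₁) (i := i₁) hy₁
  have h6 := len_reg (k := k₂) (i := i₂) hy₂
  rw [mb_even hπ] at h2
  rw [mb_even hπ'] at h3
  rw [rb_odd hπ₁] at h5
  rw [rb_even hπ₂] at h6
  have h4 := cc_le n mem (pos k i y).1 (pos k i y).2
  simp only at h1
  omega

theorem amm_one (h : Plc n C mem pos) (hC : 0 < C) (hn : n % 2 = 0) : AMM n C 1 pos := by
  intro k k' i i' y y' hk hk' hi hi' hy hy' hy4 hy4' hπ hπ' e
  by_contra hne
  have hv := h.valid k hk i hi y hy4
  obtain ⟨k₁, i₁, y₁, hk₁, hi₁, hy₁, hπ₁, e₁⟩ := occ_reg (by norm_num) h (amr_one h) hC hv.1 hv.2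
  obtain ⟨k₂, i₂, y₂, hk₂, hi₂, hy₂, hπ₂, e₂⟩ :=
    occ_reg (by norm_num) h (amr_zero h hC) hC hv.1 hv.2
  obtain ⟨k₃, i₃, y₃, hk₃, hi₃, hy₃, hy₃', hπ₃, e₃⟩ :=
    occ_mes (by norm_num) h (amm_zero h hC) hC hn hv.1 hv.2
  have hne' : ((k, i, y) : ℕ × ℕ × ℕ) ≠ (k', i', y') := by
    intro e'
    simp only [Prod.mk.injEq] at e'
    exact hne e'
  have hne₁ : ((k₁, i₁, y₁) : ℕ × ℕ × ℕ) ∉ ({(k, i, y), (k', i', y')} : Finset (ℕ × ℕ × ℕ)) := by
    simp only [Finset.mem_insert, Finset.mem_singleton, Prod.mk.injEq, not_or]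
    constructor <;> (rintro ⟨-, -, rfl⟩; omega)
  have hne₂ : ((k₂, i₂, y₂) : ℕ × ℕ × ℕ) ∉
      (insert (k₁, i₁, y₁) {(k, i, y), (k', i', y')} : Finset (ℕ × ℕ × ℕ)) := by
    simp only [Finset.mem_insert, Finset.mem_singleton, Prod.mk.injEq, not_or]
    refine ⟨?_, ?_, ?_⟩
    · rintro ⟨rfl, -, -⟩; omega
    · rintro ⟨-, -, rfl⟩; omega
    · rintro ⟨-, -, rfl⟩; omega
  have hne₃ : ((k₃, i₃, y₃) : ℕ × ℕ × ℕ) ∉
      (insert (k₂, i₂, y₂) (insert (k₁, i₁, y₁) {(k, i, y), (k', i', y')}) :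
        Finset (ℕ × ℕ × ℕ)) := by
    simp only [Finset.mem_insert, Finset.mem_singleton, Prod.mk.injEq, not_or]
    refine ⟨?_, ?_, ?_, ?_⟩
    · rintro ⟨-, -, rfl⟩; omega
    · rintro ⟨-, -, rfl⟩; omega
    · rintro ⟨-, rfl, -⟩; omega
    · rintro ⟨-, rfl, -⟩; omega
  have h1 := h.vol _ hv.1 _ hv.2
    (insert (k₃, i₃, y₃) (insert (k₂, i₂, y₂) (insert (k₁, i₁, y₁) {(k, i, y), (k', i', y')}))) (by
    intro j hj
    simp only [Finset.mem_insert, Finset.mem_singleton] at hj
    rcases hj with rfl | rfl | rfl | rfl | rfl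
    · exact ⟨hk₃, hi₃, by simp only; omega, e₃⟩
    · exact ⟨hk₂, hi₂, by simp only; omega, e₂⟩
    · exact ⟨hk₁, hi₁, by simp only; omega, e₁⟩
    · exact ⟨hk, hi, by simp only; omega, rfl⟩
    · exact ⟨hk', hi', by simp only; omega, e.symm⟩)
  rw [Finset.sum_insert hne₃, Finset.sum_insert hne₂, Finset.sum_insert hne₁,
    Finset.sum_pair hne'] at h1
  have h2 := len_mes (k := k) (i := i) hy
  have h3 := len_mes (k := k') (i := i') hy'
  have h5 := len_reg (k := k₁) (i := i₁) hy₁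
  have h6 := len_reg (k := k₂) (i := i₂) hy₂
  have h7 := len_mes (k := k₃) (i := i₃) hy₃
  rw [mb_odd hπ] at h2
  rw [mb_odd hπ'] at h3
  rw [rb_odd hπ₁] at h5
  rw [rb_even hπ₂] at h6
  rw [mb_even hπ₃] at h7
  have h4 := cc_le n mem (pos k i y).1 (pos k i y).2
  simp only at h1
  omega

end

end Pool.Agent.Helper61.Sched
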