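import Pool.Agent.Helper61.Sched.Core

/-!
# From placements to solutions of the exactly-one system
-/

set_option autoImplicit false

namespace Pool.Agent.Helper61.Sched

open Classical

section

variable {n C : ℕ} {mem : ℕ → ℕ → Prop} {pos : ℕ → ℕ → ℕ → ℕ × ℕ}

/-- bit of the register pair: the long job sits in its own slot -/
noncomputable def gb (pos : ℕ → ℕ → ℕ → ℕ × ℕ) (k i : ℕ) : ℕ := if pos k i 1 = (k, i) then 1 else 0

/-- bit of the messenger pair: the long job sits in its own slot -/
noncomputable def fb (pos : ℕ → ℕ → ℕ → ℕ × ℕ) (k i : ℕ) : ℕ := if pos k i 3 = (k, i) then 1 else 0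

theorem gb_le (k i : ℕ) : gb pos k i ≤ 1 := by unfold gb; split_ifs <;> omega
theorem fb_le (k i : ℕ) : fb pos k i ≤ 1 := by unfold fb; split_ifs <;> omega

theorem pr_ne (hC : 0 < C) (k i : ℕ) : pr n C k i ≠ (k, i) := by
  unfold pr
  split_ifs with h
  · intro e; simp only [Prod.mk.injEq] at e; omega
  · intro e; simp only [Prod.mk.injEq] at e; omega

theorem nx_ne (hC : 0 < C) (k i : ℕ) : nx n C k i ≠ (k, i) := by
  unfold nx
  split_ifs with h
  · intro e; simp only [Prod.mk.injEq] at e; omega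
  · intro e; simp only [Prod.mk.injEq] at e; omega
  · intro e; simp only [Prod.mk.injEq] at e; omega

theorem loc_all (h : Plc n C mem pos) (hC : 0 < C) {k : ℕ} (hk : k < 2 * C) {i : ℕ} (hi : i < n) :
    Loc n C pos k i := by
  rcases Nat.mod_two_eq_zero_or_one k with e | e
  · exact loc_reg h (amr_zero h hC) hC hk e hi
  · exact loc_reg h (amr_one h) hC hk e hi

theorem locM_all (h : Plc n C mem pos) (hC : 0 < C) (hn : n % 2 = 0) {k : ℕ} (hk : k < 2 * C)
    {i : ℕ} (hi : i < n) : LocM n C pos k i := by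
  rcases Nat.mod_two_eq_zero_or_one i with e | e
  · exact locM_of h (amm_zero h hC) hk hi e
  · exact locM_of h (amm_one h hC hn) hk hi e

theorem own_reg (hC : 0 < C) {k i : ℕ} (h : Loc n C pos k i) : pos k i (gb pos k i) = (k, i) := by
  rcases h with ⟨h0, h1⟩ | ⟨h1, h0⟩
  · have : gb pos k i = 0 := if_neg (by rw [h1]; exact pr_ne hC k i)
    rw [this, h0]
  · have : gb pos k i = 1 := if_pos h1
    rw [this, h1]

theorem other_reg (hC : 0 < C) {k i : ℕ} (h : Loc n C pos k i) :
    pos k i (1 - gb pos k i) = pr n C k i := by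
  rcases h with ⟨h0, h1⟩ | ⟨h1, h0⟩
  · have : gb pos k i = 0 := if_neg (by rw [h1]; exact pr_ne hC k i)
    rw [this, h1]
  · have : gb pos k i = 1 := if_pos h1
    rw [this, h0]

theorem own_mes (hC : 0 < C) {k i : ℕ} (h : LocM n C pos k i) :
    pos k i (2 + fb pos k i) = (k, i) := by
  rcases h with ⟨h0, h1⟩ | ⟨h1, h0⟩
  · have : fb pos k i = 0 := if_neg (by rw [h1]; exact nx_ne hC k i)
    rw [this, h0]
  · have : fb pos k i = 1 := if_pos h1
    rw [this, h1]

theorem other_mes (hC : 0 < C) {k i : ℕ} (h : LocM n C pos k i) :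
    pos k i (2 + (1 - fb pos k i)) = nx n C k i := by
  rcases h with ⟨h0, h1⟩ | ⟨h1, h0⟩
  · have : fb pos k i = 0 := if_neg (by rw [h1]; exact nx_ne hC k i)
    rw [this, h1]
  · have : fb pos k i = 1 := if_pos h1
    rw [this, h0]

theorem len_g {k i g : ℕ} (hg : g ≤ 1) : len k i g = rb k + g := by
  unfold len
  split_ifs <;> omega

theorem len_f {k i f : ℕ} (hf : f ≤ 1) : len k i (2 + f) = mb i + 2 * f := by
  unfold len
  split_ifs <;> omega

/-- content of a slot -/
noncomputable def cont (n C : ℕ) (pos : ℕ → ℕ → ℕ → ℕ × ℕ) (a b : ℕ) : ℕ :=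
  gb pos a b + (1 - gb pos (pv C a) (n - 1 - b)) +
    2 * (fb pos a b + (1 - fb pos (pvs n C a b).1 (pvs n C a b).2))

theorem slot_le (h : Plc n C mem pos) (hC : 0 < C) (hn : n % 2 = 0) {a b : ℕ} (ha : a < 2 * C)
    (hb : b < n) : cont n C pos a b ≤ cc n mem a b := by
  have hb' : n - 1 - b < n := by omega
  have hpa := pv_lt hC ha
  have hpm := pv_mod hC ha
  have hps := pvs_lt (n := n) hC ha hb
  have hpsm := pvs_mod (C := C) hn (a := a) hb
  have g1 := gb_le (pos := pos) a b
  have g2 := gb_le (pos := pos) (pv C a) (n - 1 - b)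
  have f1 := fb_le (pos := pos) a b
  have f2 := fb_le (pos := pos) (pvs n C a b).1 (pvs n C a b).2
  have e1 := own_reg hC (loc_all h hC ha hb)
  have e2 := (other_reg hC (loc_all h hC hpa hb')).trans (pr_pv hC ha hb)
  have e3 := own_mes hC (locM_all h hC hn ha hb)
  have e4 := (other_mes hC (locM_all h hC hn hps.1 hps.2)).trans (nx_pvs hC ha hb)
  unfold cont
  generalize gb pos a b = ga at *
  generalize gb pos (pv C a) (n - 1 - b) = gp at *
  generalize fb pos a b = fa at *
  generalize fb pos (pvs n C a b).1 (pvs n C a b).2 = fp at *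
  have hn3 : ((a, b, 2 + fa) : ℕ × ℕ × ℕ) ≠ ((pvs n C a b).1, (pvs n C a b).2, 2 + (1 - fp)) := by
    intro e
    simp only [Prod.mk.injEq] at e
    omega
  have hn2 : ((pv C a, n - 1 - b, 1 - gp) : ℕ × ℕ × ℕ) ∉
      ({(a, b, 2 + fa), ((pvs n C a b).1, (pvs n C a b).2, 2 + (1 - fp))} :
        Finset (ℕ × ℕ × ℕ)) := by
    simp only [Finset.mem_insert, Finset.mem_singleton, Prod.mk.injEq, not_or]
    omega
  have hn1 : ((a, b, ga) : ℕ × ℕ × ℕ) ∉
      (insert (pv C a, n - 1 - b, 1 - gp)
        {(a, b, 2 + fa), ((pvs n C a b).1, (pvs n C a b).2, 2 + (1 - fp))} :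
        Finset (ℕ × ℕ × ℕ)) := by
    simp only [Finset.mem_insert, Finset.mem_singleton, Prod.mk.injEq, not_or]
    omega
  have h1 := h.vol a ha b hb
    (insert (a, b, ga) (insert (pv C a, n - 1 - b, 1 - gp)
        {(a, b, 2 + fa), ((pvs n C a b).1, (pvs n C a b).2, 2 + (1 - fp))})) (by
    intro j hj
    simp only [Finset.mem_insert, Finset.mem_singleton] at hj
    rcases hj with rfl | rfl | rfl | rfl
    · exact ⟨ha, hb, by simp only; omega, e1⟩
    · exact ⟨hpa, hb', by simp only; omega, e2⟩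
    · exact ⟨ha, hb, by simp only; omega, e3⟩
    · exact ⟨hps.1, hps.2, by simp only; omega, e4⟩)
  rw [Finset.sum_insert hn1, Finset.sum_insert hn2, Finset.sum_pair hn3] at h1
  simp only at h1
  rw [len_g g1, len_g (by omega), len_f f1, len_f (by omega)] at h1
  have hr : rb a + rb (pv C a) = 60 := by
    rcases Nat.mod_two_eq_zero_or_one a with e | e
    · rw [rb_even e, rb_odd (by omega)]
    · rw [rb_odd e, rb_even (by omega)]
  have hm : mb b + mb (pvs n C a b).2 = 15 := by
    rcases Nat.mod_two_eq_zero_or_one b with e | e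
    · rw [mb_even e, mb_odd (by omega)]
    · rw [mb_odd e, mb_even (by omega)]
  omega

theorem sum_pv (F : ℕ → ℕ) (hC : 0 < C) :
    ∑ a ∈ Finset.range (2 * C), F (pv C a) = ∑ a ∈ Finset.range (2 * C), F a := by
  obtain ⟨K, hK⟩ : ∃ K, 2 * C = K + 1 := ⟨2 * C - 1, by omega⟩
  rw [hK, Finset.sum_range_succ', Finset.sum_range_succ]
  have h0 : pv C 0 = K := by unfold pv; rw [if_pos rfl]; omega
  rw [h0]
  congr 1

theorem sum_gb (G : ℕ → ℕ → ℕ) (hC : 0 < C) :
    ∑ a ∈ Finset.range (2 * C), ∑ b ∈ Finset.range n, G (pv C a) (n - 1 - b) =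
      ∑ a ∈ Finset.range (2 * C), ∑ b ∈ Finset.range n, G a b := by
  rw [← sum_pv (fun a => ∑ b ∈ Finset.range n, G a b) hC]
  apply Finset.sum_congr rfl
  intro a _
  exact Finset.sum_range_reflect (fun b => G (pv C a) b) n

theorem sum_fb (G : ℕ → ℕ → ℕ) (hC : 0 < C) (hn : 0 < n) :
    ∑ a ∈ Finset.range (2 * C), ∑ b ∈ Finset.range n, G (pvs n C a b).1 (pvs n C a b).2 =
      ∑ a ∈ Finset.range (2 * C), ∑ b ∈ Finset.range n, G a b := by
  obtain ⟨m, rfl⟩ : ∃ m, n = m + 1 := ⟨n - 1, by omega⟩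
  have h1 : ∀ a, ∑ b ∈ Finset.range (m + 1), G (pvs (m + 1) C a b).1 (pvs (m + 1) C a b).2 =
      ∑ b ∈ Finset.range m, G a b + G (pv C a) m := by
    intro a
    rw [Finset.sum_range_succ']
    congr 1
  have h2 : ∀ a, ∑ b ∈ Finset.range (m + 1), G a b = ∑ b ∈ Finset.range m, G a b + G a m := by
    intro a
    rw [Finset.sum_range_succ]
  simp only [h1, h2]
  rw [Finset.sum_add_distrib, Finset.sum_add_distrib, sum_pv (fun a => G a m) hC]

theorem sum_two (G : ℕ → ℕ) : ∀ C : ℕ, ∑ a ∈ Finset.range (2 * C), G a =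
    ∑ c ∈ Finset.range C, (G (2 * c) + G (2 * c + 1)) := by
  intro C
  induction C with
  | zero => simp
  | succ C ih =>
    rw [show 2 * (C + 1) = 2 * C + 1 + 1 by ring, Finset.sum_range_succ, Finset.sum_range_succ, ih,
      Finset.sum_range_succ]
    ring

theorem sum_cc : ∑ a ∈ Finset.range (2 * C), ∑ b ∈ Finset.range n, cc n mem a b = 6 * C * n := by
  rw [sum_two]
  have h1 : ∀ c, ∑ b ∈ Finset.range n, cc n mem (2 * c) b +
      ∑ b ∈ Finset.range n, cc n mem (2 * c + 1) b = 6 * n := by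
    intro c
    rw [← Finset.sum_range_reflect (fun b => cc n mem (2 * c + 1) b) n, ← Finset.sum_add_distrib]
    have : ∀ b ∈ Finset.range n, cc n mem (2 * c) b + cc n mem (2 * c + 1) (n - 1 - b) = 6 := by
      intro b hb
      rw [Finset.mem_range] at hb
      unfold cc vr
      rw [show (2 * c + 1) / 2 = c by omega, show 2 * c / 2 = c by omega,
        show n - 1 - (n - 1 - b) = b by omega, show (2 * c + 1) % 2 = 1 by omega,
        show 2 * c % 2 = 0 by omega]
      by_cases hm : mem c b <;> simp [hm]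
    rw [Finset.sum_congr rfl this]
    simp
    ring
  rw [Finset.sum_congr rfl fun c _ => h1 c]
  simp
  ring

theorem slot_eq (h : Plc n C mem pos) (hC : 0 < C) (hn0 : 0 < n) (hn : n % 2 = 0) {a b : ℕ}
    (ha : a < 2 * C) (hb : b < n) : cont n C pos a b = cc n mem a b := by
  have hsum : ∑ a ∈ Finset.range (2 * C), ∑ b ∈ Finset.range n, cont n C pos a b =
      ∑ a ∈ Finset.range (2 * C), ∑ b ∈ Finset.range n, cc n mem a b := by
    rw [sum_cc]
    have h1 := sum_gb (n := n) (gb pos) hC
    have h2 := sum_fb (fb pos) hC hn0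
    have h3 : ∑ a ∈ Finset.range (2 * C), ∑ b ∈ Finset.range n, (cont n C pos a b +
        gb pos (pv C a) (n - 1 - b) + 2 * fb pos (pvs n C a b).1 (pvs n C a b).2) =
        ∑ a ∈ Finset.range (2 * C), ∑ b ∈ Finset.range n, (gb pos a b + 2 * fb pos a b + 3) := by
      apply Finset.sum_congr rfl
      intro a _
      apply Finset.sum_congr rfl
      intro b _
      unfold cont
      have g2 := gb_le (pos := pos) (pv C a) (n - 1 - b)
      have f2 := fb_le (pos := pos) (pvs n C a b).1 (pvs n C a b).2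
      omega
    simp only [Finset.sum_add_distrib, ← Finset.mul_sum, Finset.sum_const, Finset.card_range,
      smul_eq_mul] at h3
    rw [h1, h2] at h3
    have h4 : n * (2 * C * 3) = 6 * C * n := by ring
    rw [h4] at h3
    omega
  have h1 := (Finset.sum_eq_sum_iff_of_le (fun a ha' => Finset.sum_le_sum fun b hb' =>
    slot_le h hC hn (Finset.mem_range.1 ha') (Finset.mem_range.1 hb'))).1 hsum a
    (Finset.mem_range.2 ha)
  exact (Finset.sum_eq_sum_iff_of_le (fun b hb' =>
    slot_le h hC hn ha (Finset.mem_range.1 hb'))).1 h1 b (Finset.mem_range.2 hb)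

/-- value of the variable `v` before the phase `2 * c` -/
noncomputable def bv (n C : ℕ) (pos : ℕ → ℕ → ℕ → ℕ × ℕ) (c v : ℕ) : ℕ :=
  1 - gb pos (pv C (2 * c)) (n - 1 - v)

theorem bv_step (h : Plc n C mem pos) (hC : 0 < C) (hn0 : 0 < n) (hn : n % 2 = 0) {c v : ℕ}
    (hc : c + 1 < C) (hv : v < n) : bv n C pos (c + 1) v = bv n C pos c v := by
  have e1 := slot_eq h hC hn0 hn (a := 2 * c) (b := v) (by omega) hv
  have e2 := slot_eq h hC hn0 hn (a := 2 * c + 1) (b := n - 1 - v) (by omega) (by omega)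
  unfold cont at e1 e2
  unfold bv
  have hp1 : pv C (2 * (c + 1)) = 2 * c + 1 := by unfold pv; rw [if_neg (by omega)]; omega
  have hp2 : pv C (2 * c + 1) = 2 * c := by unfold pv; rw [if_neg (by omega)]; omega
  rw [hp1]
  rw [hp2, show n - 1 - (n - 1 - v) = v by omega] at e2
  unfold cc vr at e1 e2
  rw [show (2 * c + 1) / 2 = c by omega, show n - 1 - (n - 1 - v) = v by omega,
    show (2 * c + 1) % 2 = 1 by omega] at e2
  rw [show 2 * c / 2 = c by omega, show 2 * c % 2 = 0 by omega] at e1
  simp only [if_true, one_ne_zero, if_false] at e1 e2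
  have g1 := gb_le (pos := pos) (pv C (2 * c)) (n - 1 - v)
  have g2 := gb_le (pos := pos) (2 * c) v
  have g3 := gb_le (pos := pos) (2 * c + 1) (n - 1 - v)
  by_cases hm : mem c v
  · rw [if_pos hm] at e1 e2
    omega
  · rw [if_neg hm] at e1 e2
    omega

theorem bv_const (h : Plc n C mem pos) (hC : 0 < C) (hn0 : 0 < n) (hn : n % 2 = 0) {v : ℕ}
    (hv : v < n) : ∀ c, c < C → bv n C pos c v = bv n C pos 0 v := by
  intro c
  induction c with
  | zero => intro _; rfl
  | succ c ih =>
    intro hc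
    rw [bv_step h hC hn0 hn hc hv, ih (by omega)]

theorem fb_last_even (h : Plc n C mem pos) (hC : 0 < C) (hn0 : 0 < n) {k : ℕ} (hk : k < 2 * C)
    (hp : k % 2 = 0) : fb pos k (n - 1) = 0 := by
  have hw := h.win k hk (n - 1) (by omega) 3 (by omega)
  unfold InWin at hw
  rw [if_neg (by norm_num), if_neg (by omega), if_neg (by simp [hp])] at hw
  unfold fb
  rw [if_neg]
  rw [hw]
  exact nx_ne hC k (n - 1)

theorem fb_last_odd (h : Plc n C mem pos) (hn0 : 0 < n) {k : ℕ} (hk : k < 2 * C)
    (hp : k % 2 = 1) : fb pos k (n - 1) = 1 := by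
  have hw := h.win k hk (n - 1) (by omega) 3 (by omega)
  unfold InWin at hw
  rw [if_neg (by norm_num), if_neg (by omega), if_pos (by simp [hp])] at hw
  unfold fb
  rw [if_pos hw]

/-- **Soundness**: a placement gives a solution of the exactly-one system. -/
theorem core_sound (h : Plc n C mem pos) (hC : 0 < C) (hn0 : 0 < n) (hn : n % 2 = 0) :
    ∃ X : ℕ → Prop, ∀ c < C, ∃! v, v < n ∧ mem c v ∧ X v := by
  refine ⟨fun v => bv n C pos 0 v = 1, fun c hc => ?_⟩
  -- partial sums
  have key : ∀ v, v ≤ n → (if v = 0 then 0 else 1 - fb pos (2 * c) (v - 1)) =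
      ((Finset.range v).filter fun v => mem c v ∧ bv n C pos 0 v = 1).card := by
    intro v
    induction v with
    | zero => intro _; simp
    | succ v ih =>
      intro hv
      have ih' := ih (by omega)
      rw [if_neg (by omega), Nat.add_sub_cancel, Finset.range_add_one, Finset.filter_insert]
      have e1 := slot_eq h hC hn0 hn (a := 2 * c) (b := v) (by omega) (by omega)
      unfold cont at e1
      unfold cc vr at e1
      rw [show 2 * c / 2 = c by omega, show 2 * c % 2 = 0 by omega] at e1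
      simp only [if_true] at e1
      have hbv : 1 - gb pos (pv C (2 * c)) (n - 1 - v) = bv n C pos 0 v :=
        bv_const h hC hn0 hn (by omega) c hc
      rw [hbv] at e1
      have hS : 1 - fb pos (pvs n C (2 * c) v).1 (pvs n C (2 * c) v).2 =
          (if v = 0 then 0 else 1 - fb pos (2 * c) (v - 1)) := by
        unfold pvs
        by_cases h0 : v = 0
        · rw [if_pos h0, if_pos h0]
          simp only
          rw [fb_last_odd h hn0 (pv_lt hC (by omega)) (by rw [pv_mod hC (by omega)]; omega)]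
        · rw [if_neg h0, if_neg h0]
      rw [hS, ih'] at e1
      have g2 := gb_le (pos := pos) (2 * c) v
      have hb1 : bv n C pos 0 v ≤ 1 := by unfold bv; omega
      have f1 := fb_le (pos := pos) (2 * c) v
      by_cases hm : mem c v
      · rw [if_pos hm] at e1
        by_cases hb : bv n C pos 0 v = 1
        · rw [if_pos ⟨hm, hb⟩, Finset.card_insert_of_notMem (by simp)]
          omega
        · rw [if_neg (fun hh => hb hh.2)]
          omega
      · rw [if_neg hm] at e1
        rw [if_neg (fun hh => hm hh.1)]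
        omega
  have h1 := key n le_rfl
  rw [if_neg (by omega), fb_last_even h hC hn0 (by omega) (by omega)] at h1
  have h2 : ((Finset.range n).filter fun v => mem c v ∧ bv n C pos 0 v = 1).card = 1 := by omega
  obtain ⟨v, hv⟩ := Finset.card_eq_one.1 h2
  refine ⟨v, ?_, ?_⟩
  · have : v ∈ (Finset.range n).filter fun v => mem c v ∧ bv n C pos 0 v = 1 := by
      rw [hv]; exact Finset.mem_singleton_self v
    rw [Finset.mem_filter, Finset.mem_range] at this
    exact this
  · rintro w ⟨hw1, hw2, hw3⟩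
    have : w ∈ (Finset.range n).filter fun v => mem c v ∧ bv n C pos 0 v = 1 := by
      rw [Finset.mem_filter, Finset.mem_range]
      exact ⟨hw1, hw2, hw3⟩
    rw [hv] at this
    exact Finset.mem_singleton.1 this

end

end Pool.Agent.Helper61.Sched
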