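import Pool.Agent.Helper61.Sched.Core2

/-!
# From solutions of the exactly-one system to placements
-/

set_option autoImplicit false

namespace Pool.Agent.Helper61.Sched

open Classical

section

variable (n C : ℕ) (mem : ℕ → ℕ → Prop) (X : ℕ → Prop)

/-- value of the variable `v` before the phase `k` -/
def Bp (k v : ℕ) : Prop := if k % 2 = 0 then X v else (X v ↔ ¬ mem (k / 2) v)

/-- the long register job sits in its own slot -/
def Gp (k i : ℕ) : Prop := ¬ Bp mem X (k + 1) (vr n k i)

/-- the long messenger job sits in its own slot -/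
def Fp (k i : ℕ) : Prop :=
  if k % 2 = 0 then ¬ ∃ i' ≤ i, mem (k / 2) i' ∧ X i'
  else ∃ i' ≤ i, mem (k / 2) (n - 1 - i') ∧ X (n - 1 - i')

/-- the placement of a solution -/
noncomputable def ps (k i y : ℕ) : ℕ × ℕ :=
  if y = 0 then (if Gp n mem X k i then pr n C k i else (k, i))
  else if y = 1 then (if Gp n mem X k i then (k, i) else pr n C k i)
  else if y = 2 then (if Fp n mem X k i then nx n C k i else (k, i))
  else (if Fp n mem X k i then (k, i) else nx n C k i)

variable {n C mem X}

theorem pr_lt (hC : 0 < C) {k i : ℕ} (hi : i < n) :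
    (pr n C k i).1 < 2 * C ∧ (pr n C k i).2 < n := by
  unfold pr
  split_ifs with h
  · exact ⟨h, by simp only; omega⟩
  · exact ⟨by simp only; omega, by simp only; omega⟩

theorem nx_lt (hC : 0 < C) {k i : ℕ} (hk : k < 2 * C) (hi : i < n) :
    (nx n C k i).1 < 2 * C ∧ (nx n C k i).2 < n := by
  unfold nx
  split_ifs with h h
  · exact ⟨hk, h⟩
  · exact ⟨by simp only; omega, by simp only; omega⟩
  · exact ⟨by simp only; omega, by simp only; omega⟩

theorem pr_inj {k i a b : ℕ} (hC : 0 < C) (hk : k < 2 * C) (hi : i < n)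
    (h : pr n C k i = (a, b)) : k = pv C a ∧ i = n - 1 - b := by
  unfold pr at h
  unfold pv
  split_ifs at h with h1
  · simp only [Prod.mk.injEq] at h
    rw [if_neg (by omega)]
    omega
  · simp only [Prod.mk.injEq] at h
    rw [if_pos (by omega)]
    omega

theorem nx_inj {k i a b : ℕ} (hk : k < 2 * C) (_hi : i < n)
    (h : nx n C k i = (a, b)) : (k, i) = pvs n C a b := by
  unfold nx at h
  unfold pvs pv
  split_ifs at h with h1 h2
  · simp only [Prod.mk.injEq] at h
    rw [if_neg (by omega)]
    exact Prod.ext (by simp only; omega) (by simp only; omega)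
  · simp only [Prod.mk.injEq] at h
    rw [if_pos (by omega), if_neg (by omega)]
    exact Prod.ext (by simp only; omega) (by simp only; omega)
  · simp only [Prod.mk.injEq] at h
    rw [if_pos (by omega), if_pos (by omega)]
    exact Prod.ext (by simp only; omega) (by simp only; omega)

theorem inWin_own {k i y : ℕ} (_hi : i < n) (hk : k < 2 * C) (hy : y < 2) :
    InWin n C k i y (k, i) := by
  unfold InWin
  rw [if_pos hy]
  split_ifs with h
  · exact Or.inl ⟨rfl, le_rfl⟩
  · refine ⟨?_, fun _ => le_rfl⟩
    right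
    simp only
    omega

theorem inWin_pr {k i y : ℕ} (hi : i < n) (hk : k < 2 * C) (hy : y < 2) :
    InWin n C k i y (pr n C k i) := by
  unfold InWin pr
  rw [if_pos hy]
  split_ifs with h
  · exact Or.inr ⟨rfl, le_rfl⟩
  · refine ⟨Or.inl ⟨rfl, le_rfl⟩, ?_⟩
    simp only
    omega

/-- `X` solves the exactly-one system. -/
def Sol (n C : ℕ) (mem : ℕ → ℕ → Prop) (X : ℕ → Prop) : Prop :=
  ∀ c < C, ∃! v, v < n ∧ mem c v ∧ X v

theorem Fp_last_even (hX : Sol n C mem X) {k : ℕ} (hk : k < 2 * C)
    (hp : k % 2 = 0) : ¬ Fp n mem X k (n - 1) := by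
  unfold Fp
  rw [if_pos hp, not_not]
  obtain ⟨v, ⟨hv, hm, hx⟩, -⟩ := hX (k / 2) (by omega)
  exact ⟨v, by omega, hm, hx⟩

theorem Fp_last_odd (hX : Sol n C mem X) {k : ℕ} (hk : k < 2 * C)
    (hp : k % 2 = 1) : Fp n mem X k (n - 1) := by
  unfold Fp
  rw [if_neg (by omega)]
  obtain ⟨v, ⟨hv, hm, hx⟩, -⟩ := hX (k / 2) (by omega)
  refine ⟨n - 1 - v, by omega, ?_⟩
  rw [show n - 1 - (n - 1 - v) = v by omega]
  exact ⟨hm, hx⟩

theorem win_ps (hX : Sol n C mem X) {k i y : ℕ} (hk : k < 2 * C) (hi : i < n)
    (hy : y < 4) : InWin n C k i y (ps n C mem X k i y) := by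
  rcases Nat.lt_or_ge y 2 with h2 | h2
  · have h3 : y = 0 ∨ y = 1 := by omega
    rcases h3 with rfl | rfl
    · unfold ps
      rw [if_pos rfl]
      split_ifs
      · exact inWin_pr hi hk h2
      · exact inWin_own hi hk h2
    · unfold ps
      rw [if_neg (by norm_num), if_pos rfl]
      split_ifs
      · exact inWin_own hi hk h2
      · exact inWin_pr hi hk h2
  · have h3 : y = 2 ∨ y = 3 := by omega
    unfold InWin
    rw [if_neg (by omega)]
    by_cases hi1 : i + 1 < n
    · rw [if_pos hi1]
      have hnx : nx n C k i = (k, i + 1) := if_pos hi1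
      rcases h3 with rfl | rfl
      · unfold ps
        rw [if_neg (by norm_num), if_neg (by norm_num), if_pos rfl]
        split_ifs
        · exact Or.inr hnx
        · exact Or.inl rfl
      · unfold ps
        rw [if_neg (by norm_num), if_neg (by norm_num), if_neg (by norm_num)]
        split_ifs
        · exact Or.inl rfl
        · exact Or.inr hnx
    · rw [if_neg hi1]
      have hi' : i = n - 1 := by omega
      subst hi'
      rcases Nat.mod_two_eq_zero_or_one k with hp | hp
      · have hF := Fp_last_even hX hk hp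
        rcases h3 with rfl | rfl
        · rw [if_pos (by simp [hp])]
          unfold ps
          rw [if_neg (by norm_num), if_neg (by norm_num), if_pos rfl, if_neg hF]
        · rw [if_neg (by simp [hp])]
          unfold ps
          rw [if_neg (by norm_num), if_neg (by norm_num), if_neg (by norm_num), if_neg hF]
      · have hF := Fp_last_odd hX hk hp
        rcases h3 with rfl | rfl
        · rw [if_neg (by simp [hp])]
          unfold ps
          rw [if_neg (by norm_num), if_neg (by norm_num), if_pos rfl, if_pos hF]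
        · rw [if_pos (by simp [hp])]
          unfold ps
          rw [if_neg (by norm_num), if_neg (by norm_num), if_neg (by norm_num), if_pos hF]

theorem mem_four {k i y a b : ℕ} (hC : 0 < C) (hk : k < 2 * C) (hi : i < n) (hy : y < 4)
    (h : ps n C mem X k i y = (a, b)) :
    ((k, i, y) : ℕ × ℕ × ℕ) ∈ (insert (a, b, if Gp n mem X a b then 1 else 0)
      (insert (pv C a, n - 1 - b, if Gp n mem X (pv C a) (n - 1 - b) then 0 else 1)
        {(a, b, if Fp n mem X a b then 3 else 2), ((pvs n C a b).1, (pvs n C a b).2,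
          if Fp n mem X (pvs n C a b).1 (pvs n C a b).2 then 2 else 3)}) :
        Finset (ℕ × ℕ × ℕ)) := by
  simp only [Finset.mem_insert, Finset.mem_singleton]
  have h3 : y = 0 ∨ y = 1 ∨ y = 2 ∨ y = 3 := by omega
  unfold ps at h
  rcases h3 with rfl | rfl | rfl | rfl
  · rw [if_pos rfl] at h
    by_cases hG : Gp n mem X k i
    · rw [if_pos hG] at h
      obtain ⟨rfl, rfl⟩ := pr_inj hC hk hi h
      right; left
      rw [if_pos hG]
    · rw [if_neg hG] at h
      simp only [Prod.mk.injEq] at h
      obtain ⟨rfl, rfl⟩ := h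
      left
      rw [if_neg hG]
  · rw [if_neg (by norm_num), if_pos rfl] at h
    by_cases hG : Gp n mem X k i
    · rw [if_pos hG] at h
      simp only [Prod.mk.injEq] at h
      obtain ⟨rfl, rfl⟩ := h
      left
      rw [if_pos hG]
    · rw [if_neg hG] at h
      obtain ⟨rfl, rfl⟩ := pr_inj hC hk hi h
      right; left
      rw [if_neg hG]
  · rw [if_neg (by norm_num), if_neg (by norm_num), if_pos rfl] at h
    by_cases hF : Fp n mem X k i
    · rw [if_pos hF] at h
      have h4 := nx_inj hk hi h
      right; right; right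
      rw [← h4]
      simp only
      rw [if_pos hF]
    · rw [if_neg hF] at h
      simp only [Prod.mk.injEq] at h
      obtain ⟨rfl, rfl⟩ := h
      right; right; left
      rw [if_neg hF]
  · rw [if_neg (by norm_num), if_neg (by norm_num), if_neg (by norm_num)] at h
    by_cases hF : Fp n mem X k i
    · rw [if_pos hF] at h
      simp only [Prod.mk.injEq] at h
      obtain ⟨rfl, rfl⟩ := h
      right; right; left
      rw [if_pos hF]
    · rw [if_neg hF] at h
      have h4 := nx_inj hk hi h
      right; right; right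
      rw [← h4]
      simp only
      rw [if_neg hF]

theorem Bp_pv (hC : 0 < C) {a v : ℕ} : Bp mem X (pv C a + 1) v ↔ Bp mem X a v := by
  unfold Bp pv
  by_cases h0 : a = 0
  · subst h0
    rw [if_pos rfl, if_pos (by omega), if_pos (by norm_num)]
  · rw [if_neg h0, show a - 1 + 1 = a by omega]

theorem vr_pv (hC : 0 < C) {a b : ℕ} (ha : a < 2 * C) (hb : b < n) :
    vr n (pv C a) (n - 1 - b) = vr n a b := by
  have h := pv_mod hC ha
  unfold vr
  rcases Nat.mod_two_eq_zero_or_one a with e | e
  · rw [if_neg (by omega), if_pos e]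
    omega
  · rw [if_pos (by omega), if_neg (by omega)]

theorem content_eq (hX : Sol n C mem X) (hC : 0 < C) {a b : ℕ} (ha : a < 2 * C)
    (hb : b < n) :
    (if Gp n mem X a b then 1 else 0) + (if Gp n mem X (pv C a) (n - 1 - b) then 0 else 1) +
      2 * ((if Fp n mem X a b then 1 else 0) +
        (if Fp n mem X (pvs n C a b).1 (pvs n C a b).2 then 0 else 1)) = cc n mem a b := by
  have hG' : Gp n mem X (pv C a) (n - 1 - b) ↔ ¬ Bp mem X a (vr n a b) := by
    unfold Gp
    rw [Bp_pv hC, vr_pv hC ha hb]
  have hG : Gp n mem X a b ↔ ¬ Bp mem X (a + 1) (vr n a b) := Iff.rfl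
  have hpm := pv_mod hC ha
  have hpl := pv_lt hC ha
  have hsub : ∀ x, n - 1 - x < n := by intro x; clear * - hb; omega
  obtain ⟨w, -, huniq⟩ := hX (a / 2) (by omega)
  rcases Nat.mod_two_eq_zero_or_one a with e | e
  · have hv : vr n a b = b := if_pos e
    have hF : Fp n mem X a b ↔ ¬ ((∃ i < b, mem (a / 2) i ∧ X i) ∨ (mem (a / 2) b ∧ X b)) := by
      unfold Fp
      rw [if_pos e, not_iff_not]
      constructor
      · rintro ⟨i, hi, h⟩
        rcases Nat.lt_or_ge i b with h1 | h1
        · exact Or.inl ⟨i, h1, h⟩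
        · have : i = b := by omega
          subst this
          exact Or.inr h
      · rintro (⟨i, hi, h⟩ | h)
        · exact ⟨i, by omega, h⟩
        · exact ⟨b, le_rfl, h⟩
    have hF' : Fp n mem X (pvs n C a b).1 (pvs n C a b).2 ↔
        ¬ (∃ i < b, mem (a / 2) i ∧ X i) := by
      unfold pvs
      by_cases h0 : b = 0
      · rw [if_pos h0]
        simp only
        have := Fp_last_odd hX hpl (by omega)
        simp only [this, true_iff]
        rintro ⟨i, hi, -⟩
        omega
      · rw [if_neg h0]
        unfold Fp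
        simp only
        rw [if_pos e, not_iff_not]
        constructor
        · rintro ⟨i, hi, h⟩
          exact ⟨i, by omega, h⟩
        · rintro ⟨i, hi, h⟩
          exact ⟨i, by omega, h⟩
    have huq : (mem (a / 2) b ∧ X b) → ¬ (∃ i < b, mem (a / 2) i ∧ X i) := by
      rintro h ⟨i, hi, h'⟩
      have h1 := huniq b ⟨hb, h⟩
      have h2 := huniq i ⟨by omega, h'⟩
      omega
    have hB : Bp mem X a (vr n a b) ↔ X b := by
      unfold Bp
      rw [if_pos e, hv]
    have hB' : Bp mem X (a + 1) (vr n a b) ↔ (X b ↔ ¬ mem (a / 2) b) := by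
      unfold Bp
      rw [if_neg (by omega), hv, show (a + 1) / 2 = a / 2 by omega]
    rw [hB] at hG'
    rw [hB'] at hG
    unfold cc
    rw [hv]
    simp only [hG, hG', hF, hF']
    by_cases hm : mem (a / 2) b <;> by_cases hx : X b <;>
      by_cases hq : (∃ i < b, mem (a / 2) i ∧ X i)
    · exact absurd hq (huq ⟨hm, hx⟩)
    · simp [hm, hx, hq, e]
    · simp [hm, hx, hq, e]
    · simp [hm, hx, hq, e]
    · simp [hm, hx, hq]
    · simp [hm, hx, hq]
    · simp [hm, hx, hq]
    · simp [hm, hx, hq]
  · have hv : vr n a b = n - 1 - b := if_neg (by omega)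
    have hF : Fp n mem X a b ↔ ((∃ i < b, mem (a / 2) (n - 1 - i) ∧ X (n - 1 - i)) ∨
        (mem (a / 2) (n - 1 - b) ∧ X (n - 1 - b))) := by
      unfold Fp
      rw [if_neg (by omega)]
      constructor
      · rintro ⟨i, hi, h⟩
        rcases Nat.lt_or_ge i b with h1 | h1
        · exact Or.inl ⟨i, h1, h⟩
        · have : i = b := by omega
          subst this
          exact Or.inr h
      · rintro (⟨i, hi, h⟩ | h)
        · exact ⟨i, by omega, h⟩
        · exact ⟨b, le_rfl, h⟩
    have hF' : Fp n mem X (pvs n C a b).1 (pvs n C a b).2 ↔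
        (∃ i < b, mem (a / 2) (n - 1 - i) ∧ X (n - 1 - i)) := by
      unfold pvs
      by_cases h0 : b = 0
      · rw [if_pos h0]
        simp only
        have := Fp_last_even hX hpl (by omega)
        simp only [this, false_iff]
        rintro ⟨i, hi, -⟩
        omega
      · rw [if_neg h0]
        unfold Fp
        simp only
        rw [if_neg (by omega)]
        constructor
        · rintro ⟨i, hi, h⟩
          exact ⟨i, by omega, h⟩
        · rintro ⟨i, hi, h⟩
          exact ⟨i, by omega, h⟩
    have huq : (mem (a / 2) (n - 1 - b) ∧ X (n - 1 - b)) →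
        ¬ (∃ i < b, mem (a / 2) (n - 1 - i) ∧ X (n - 1 - i)) := by
      rintro h ⟨i, hi, h'⟩
      have hb1 : n - 1 - b < n := hsub b
      have hi1 : n - 1 - i < n := hsub i
      have h3 : n - 1 - b = n - 1 - i :=
        (huniq (n - 1 - b) ⟨hb1, h⟩).trans (huniq (n - 1 - i) ⟨hi1, h'⟩).symm
      clear * - h3 hi hb
      omega
    have hB : Bp mem X a (vr n a b) ↔ (X (n - 1 - b) ↔ ¬ mem (a / 2) (n - 1 - b)) := by
      unfold Bp
      rw [if_neg (by omega), hv]
    have hB' : Bp mem X (a + 1) (vr n a b) ↔ X (n - 1 - b) := by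
      unfold Bp
      rw [if_pos (by omega), hv]
    rw [hB] at hG'
    rw [hB'] at hG
    unfold cc
    rw [hv]
    simp only [hG, hG', hF, hF']
    by_cases hm : mem (a / 2) (n - 1 - b) <;> by_cases hx : X (n - 1 - b) <;>
      by_cases hq : (∃ i < b, mem (a / 2) (n - 1 - i) ∧ X (n - 1 - i))
    · exact absurd hq (huq ⟨hm, hx⟩)
    · simp [hm, hx, hq, e]
    · simp [hm, hx, hq, e]
    · simp [hm, hx, hq, e]
    · simp [hm, hx, hq]
    · simp [hm, hx, hq]
    · simp [hm, hx, hq]
    · simp [hm, hx, hq]

/-- **Completeness**: a solution of the exactly-one system gives a placement. -/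
theorem core_complete (hX : Sol n C mem X) (hC : 0 < C) (hn : n % 2 = 0) :
    Plc n C mem (ps n C mem X) := by
  refine ⟨?_, fun k hk i hi y hy => win_ps hX hk hi hy, ?_⟩
  · intro k hk i hi y hy
    unfold ps
    have h1 := pr_lt (k := k) hC hi
    have h2 := nx_lt hC hk hi
    split_ifs
    · exact h1
    · exact ⟨hk, hi⟩
    · exact ⟨hk, hi⟩
    · exact h1
    · exact h2
    · exact ⟨hk, hi⟩
    · exact ⟨hk, hi⟩
    · exact h2
  · intro a ha b hb A hA
    have hsub : A ⊆ (insert (a, b, if Gp n mem X a b then 1 else 0)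
      (insert (pv C a, n - 1 - b, if Gp n mem X (pv C a) (n - 1 - b) then 0 else 1)
        {(a, b, if Fp n mem X a b then 3 else 2), ((pvs n C a b).1, (pvs n C a b).2,
          if Fp n mem X (pvs n C a b).1 (pvs n C a b).2 then 2 else 3)}) :
        Finset (ℕ × ℕ × ℕ)) := by
      rintro ⟨k, i, y⟩ hj
      obtain ⟨h1, h2, h3, h4⟩ := hA _ hj
      exact mem_four hC h1 h2 h3 h4
    refine (Finset.sum_le_sum_of_subset hsub).trans ?_
    have hc := content_eq hX hC ha hb
    have hpa := pv_lt hC ha
    have hpm := pv_mod hC ha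
    have hps := pvs_lt (n := n) hC ha hb
    have hpsm := pvs_mod (C := C) hn (a := a) hb
    have hr : rb a + rb (pv C a) = 60 := by
      rcases Nat.mod_two_eq_zero_or_one a with e | e
      · rw [rb_even e, rb_odd (by omega)]
      · rw [rb_odd e, rb_even (by omega)]
    have hm : mb b + mb (pvs n C a b).2 = 15 := by
      rcases Nat.mod_two_eq_zero_or_one b with e | e
      · rw [mb_even e, mb_odd (by omega)]
      · rw [mb_odd e, mb_even (by omega)]
    have l1 : len a b (if Gp n mem X a b then 1 else 0) =
        rb a + (if Gp n mem X a b then 1 else 0) := by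
      apply len_g; split_ifs <;> omega
    have l2 : len (pv C a) (n - 1 - b) (if Gp n mem X (pv C a) (n - 1 - b) then 0 else 1) =
        rb (pv C a) + (if Gp n mem X (pv C a) (n - 1 - b) then 0 else 1) := by
      apply len_g; split_ifs <;> omega
    have l3 : len a b (if Fp n mem X a b then 3 else 2) =
        mb b + 2 * (if Fp n mem X a b then 1 else 0) := by
      by_cases hF : Fp n mem X a b
      · rw [if_pos hF, if_pos hF]; exact len_f (f := 1) le_rfl
      · rw [if_neg hF, if_neg hF]; exact len_f (f := 0) (by norm_num)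
    have l4 : len (pvs n C a b).1 (pvs n C a b).2
        (if Fp n mem X (pvs n C a b).1 (pvs n C a b).2 then 2 else 3) =
        mb (pvs n C a b).2 + 2 * (if Fp n mem X (pvs n C a b).1 (pvs n C a b).2 then 0 else 1) := by
      by_cases hF : Fp n mem X (pvs n C a b).1 (pvs n C a b).2
      · rw [if_pos hF, if_pos hF]; exact len_f (f := 0) (by norm_num)
      · rw [if_neg hF, if_neg hF]; exact len_f (f := 1) le_rfl
    have y1 : (if Gp n mem X a b then 1 else 0) < 2 := by split_ifs <;> omega
    have y2 : (if Gp n mem X (pv C a) (n - 1 - b) then 0 else 1) < 2 := by split_ifs <;> omega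
    have y3 : 2 ≤ (if Fp n mem X a b then 3 else 2) := by split_ifs <;> omega
    have y4 : 2 ≤ (if Fp n mem X (pvs n C a b).1 (pvs n C a b).2 then 2 else 3) := by
      split_ifs <;> omega
    rw [Finset.sum_insert, Finset.sum_insert, Finset.sum_pair]
    · simp only
      rw [l1, l2, l3, l4]
      omega
    · intro e
      simp only [Prod.mk.injEq] at e
      omega
    · simp only [Finset.mem_insert, Finset.mem_singleton, Prod.mk.injEq, not_or]
      omega
    · simp only [Finset.mem_insert, Finset.mem_singleton, Prod.mk.injEq, not_or]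
      omega

end

end Pool.Agent.Helper61.Sched
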