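import Pool.Agent.Helper96.Complexity

/-!
# Binary digits of definable numbers are definable
-/

set_option autoImplicit false

namespace Pool.Agent.Helper61.Sched

open Classical Pool.Agent.Helper96

/-- powers of two, by bounded quantifiers -/
def IsP2 (w : ℕ) : Prop := 0 < w ∧ ∀ d < w + 1, w % d = 0 → (d = 1 ∨ d % 2 = 0)

theorem isP2_iff (w : ℕ) : IsP2 w ↔ ∃ e, w = 2 ^ e := by
  constructor
  · rintro ⟨h0, h⟩
    rcases Nat.eq_two_pow_or_exists_odd_prime_and_dvd w with h1 | ⟨p, hp, hd, ho⟩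
    · exact h1
    · exfalso
      have h2 := h p (Nat.lt_succ_of_le (Nat.le_of_dvd h0 hd)) (Nat.mod_eq_zero_of_dvd hd)
      rcases h2 with h2 | h2
      · exact hp.one_lt.ne' h2
      · rw [Nat.odd_iff] at ho
        omega
  · rintro ⟨e, rfl⟩
    refine ⟨by positivity, fun d _ hd => ?_⟩
    obtain ⟨k, -, rfl⟩ := (Nat.dvd_prime_pow Nat.prime_two).1 (Nat.dvd_of_mod_eq_zero hd)
    rcases k with _ | k
    · left; rfl
    · right
      rw [pow_succ]
      exact Nat.mul_mod_left _ 2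

theorem count_p2 (e : ℕ) : ∑ u ∈ Finset.range (2 ^ e), (if IsP2 u then 1 else 0) = e := by
  rw [Finset.sum_boole]
  have h1 : (Finset.range (2 ^ e)).filter IsP2 = (Finset.range e).image (fun i => 2 ^ i) := by
    ext u
    rw [Finset.mem_filter, Finset.mem_range, Finset.mem_image]
    constructor
    · rintro ⟨h1, h2⟩
      obtain ⟨k, rfl⟩ := (isP2_iff u).1 h2
      exact ⟨k, Finset.mem_range.2 ((Nat.pow_lt_pow_iff_right (by norm_num)).1 h1), rfl⟩
    · rintro ⟨k, hk, rfl⟩
      exact ⟨Nat.pow_lt_pow_right (by norm_num) (Finset.mem_range.1 hk), (isP2_iff _).2 ⟨k, rfl⟩⟩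
  rw [h1, Finset.card_image_of_injective _ (Nat.pow_right_injective le_rfl), Finset.card_range]
  rfl

theorem testBit_iff (x i : ℕ) : x.testBit i = true ↔ ∃ w < x + 1, IsP2 w ∧
    ∑ u ∈ Finset.range w, (if IsP2 u then 1 else 0) = i ∧ x / w % 2 = 1 := by
  constructor
  · intro h
    have h1 := Nat.ge_two_pow_of_testBit h
    refine ⟨2 ^ i, by omega, (isP2_iff _).2 ⟨i, rfl⟩, count_p2 i, ?_⟩
    rw [Nat.testBit_eq_decide_div_mod_eq] at h
    exact of_decide_eq_true h
  · rintro ⟨w, -, h2, h3, h4⟩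
    obtain ⟨e, rfl⟩ := (isP2_iff w).1 h2
    rw [count_p2] at h3
    subst h3
    rw [Nat.testBit_eq_decide_div_mod_eq]
    exact decide_eq_true h4

theorem defP_isP2 {f : Inp → (ℕ → ℕ) → ℕ} (hf : Def f) : DefP fun X v => IsP2 (f X v) := by
  have h1 : DefP fun (_ : Inp) v => IsP2 (v 0) := by
    refine (DefP.and (DefP.lt (Def.const 0) (Def.var 0)) (DefP.all ((Def.var 0).add (Def.const 1))
      (P := fun _ v => v 1 % v 0 = 0 → (v 0 = 1 ∨ v 0 % 2 = 0)) ?_)).congr fun X v => ?_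
    · exact DefP.imp (DefP.eq (Def.mod (Def.var 1) (Def.var 0)) (Def.const 0))
        (DefP.or (DefP.eq (Def.var 0) (Def.const 1))
          (DefP.eq (Def.mod (Def.var 0) (Def.const 2)) (Def.const 0)))
    · rfl
  exact DefP.comp1 (F := fun _ w => IsP2 w) h1 hf

theorem defP_testBit {f g : Inp → (ℕ → ℕ) → ℕ} (hf : Def f) (hg : Def g) :
    DefP fun X v => (f X v).testBit (g X v) = true := by
  have h1 : DefP fun (_ : Inp) v => (v 0).testBit (v 1) = true := by
    refine (DefP.ex ((Def.var 0).add (Def.const 1))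
      (P := fun _ v => IsP2 (v 0) ∧ ∑ u ∈ Finset.range (v 0), (if IsP2 u then 1 else 0) = v 2 ∧
        v 1 / v 0 % 2 = 1) ?_).congr fun X v => ?_
    · refine DefP.and (defP_isP2 (Def.var 0)) (DefP.and (DefP.eq ?_ (Def.var 2))
        (DefP.eq (Def.mod (Def.div (Def.var 1) (Def.var 0)) (Def.const 2)) (Def.const 1)))
      exact Def.sum (Def.var 0) (defP_isP2 (Def.var 0))
    · exact (testBit_iff _ _).symm
  exact DefP.comp2 (F := fun _ x i => x.testBit i = true) h1 hf hg

end Pool.Agent.Helper61.Sched
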