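import Pool.Agent.Helper61.Sched.Sys
import Pool.Agent.Helper61.Sched.TestBit

/-!
# The data of the instance are definable
-/

set_option autoImplicit false

namespace Pool.Agent.Helper61.Sched

open Classical Pool.Agent.Helper96

variable (Φ : CNFData)

theorem def_q0 : Def fun X _ => q0 Φ X :=
  Def.mul (Def.const 2) (Def.add Φ.def_n (Def.const 1))

theorem def_N0 : Def fun X _ => N0 Φ X :=
  Def.mul (Def.add (Def.const 1) (Def.mul (Def.const 2) Φ.def_m)) (def_q0 Φ)

variable {Φ}
variable {f g h e : Inp → (ℕ → ℕ) → ℕ}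

theorem def_cmpl (hf : Def f) : Def fun X v => cmpl (f X v) :=
  (Def.ite (DefP.eq (Def.mod hf (Def.const 2)) (Def.const 0)) (Def.add hf (Def.const 1))
    (Def.sub hf (Def.const 1))).congr fun X v => by unfold cmpl; split_ifs <;> rfl

theorem defP_lit (hf : Def f) (hg : Def g) (hh : Def h) :
    DefP fun X v => Φ.lit X (f X v) (g X v) (h X v) :=
  DefP.subst (P := fun X v => Φ.lit X (v 0) (v 1) (v 2))
    (g := fun i => match i with | 0 => f | 1 => g | _ => h) Φ.def_lit fun i => match i with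
      | 0 => hf
      | 1 => hg
      | _ + 2 => hh

theorem defP_mem0 (hf : Def f) (hg : Def g) (hh : Def h) (he : Def e) :
    DefP fun X v => mem0 Φ X (f X v) (g X v) (h X v) (e X v) := by
  unfold mem0
  refine DefP.or ?_ (DefP.or ?_ ?_)
  · exact DefP.and (DefP.eq hf (Def.const 0)) (DefP.and (DefP.eq hh (Def.const 0))
      (DefP.or (DefP.eq he hg) (DefP.eq he (def_cmpl hg))))
  · exact DefP.and (DefP.eq (Def.mod hf (Def.const 2)) (Def.const 1))
      (DefP.or (DefP.and (DefP.eq hh hf) (DefP.eq he hg))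
        (DefP.or (DefP.and (DefP.eq hh (Def.add hf (Def.const 1))) (DefP.eq he hg))
          (DefP.and (DefP.eq hh (Def.const 0)) (DefP.eq he (def_cmpl hg)))))
  · exact DefP.and (DefP.eq (Def.mod hf (Def.const 2)) (Def.const 0))
      (DefP.and (DefP.not (DefP.eq hf (Def.const 0)))
        (DefP.and (DefP.eq (Def.add hh (Def.const 1)) hf)
          (DefP.and (DefP.lt (Def.div he (Def.const 2)) Φ.def_n)
            (defP_lit (Def.div he (Def.const 2)) (Def.mod he (Def.const 2))
              (Def.sub (Def.div hf (Def.const 2)) (Def.const 1))))))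

theorem defP_mem1 (hf : Def f) (hg : Def g) :
    DefP fun X v => mem1 Φ X (f X v) (g X v) :=
  defP_mem0 (Def.div hf (def_q0 Φ)) (Def.mod hf (def_q0 Φ)) (Def.div hg (def_q0 Φ))
    (Def.mod hg (def_q0 Φ))

theorem def_vr (hf : Def f) (hg : Def g) (hh : Def h) :
    Def fun X v => vr (f X v) (g X v) (h X v) :=
  (Def.ite (DefP.eq (Def.mod hg (Def.const 2)) (Def.const 0)) hh
    (Def.sub (Def.sub hf (Def.const 1)) hh)).congr fun X v => by unfold vr; split_ifs <;> rfl

theorem def_cc (hf : Def f) (hg : Def g) :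
    Def fun X v => cc (N0 Φ X) (mem1 Φ X) (f X v) (g X v) :=
  (Def.ite (defP_mem1 (Φ := Φ) (Def.div hf (Def.const 2)) (def_vr (def_N0 Φ) hf hg))
    (Def.ite (DefP.eq (Def.mod hf (Def.const 2)) (Def.const 0)) (Def.const 2) (Def.const 4))
    (Def.const 3)).congr fun X v => by unfold cc; split_ifs <;> rfl

theorem def_rb (hf : Def f) : Def fun X v => rb (f X v) :=
  (Def.ite (DefP.eq (Def.mod hf (Def.const 2)) (Def.const 0)) (Def.const 20)
    (Def.const 40)).congr fun X v => by unfold rb; split_ifs <;> rfl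

theorem def_mb (hf : Def f) : Def fun X v => mb (f X v) :=
  (Def.ite (DefP.eq (Def.mod hf (Def.const 2)) (Def.const 0)) (Def.const 10)
    (Def.const 5)).congr fun X v => by unfold mb; split_ifs <;> rfl

theorem def_len (hf : Def f) (hg : Def g) (hh : Def h) :
    Def fun X v => len (f X v) (g X v) (h X v) :=
  (Def.ite (DefP.eq hh (Def.const 0)) (def_rb hf)
    (Def.ite (DefP.eq hh (Def.const 1)) (Def.add (def_rb hf) (Def.const 1))
      (Def.ite (DefP.eq hh (Def.const 2)) (def_mb hg)
        (Def.add (def_mb hg) (Def.const 2))))).congr fun X v => by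
    unfold len; split_ifs <;> rfl

theorem def_lo (hf : Def f) (hg : Def g) (hh : Def h) :
    Def fun X v => lo (N0 Φ X) (N0 Φ X) (f X v) (g X v) (h X v) := by
  have hn := def_N0 Φ
  have h1 : Def fun X v => f X v * N0 Φ X + g X v := Def.add (Def.mul hf hn) hg
  have h2 : DefP fun X v => f X v + 1 < 2 * N0 Φ X :=
    DefP.lt (Def.add hf (Def.const 1)) (Def.mul (Def.const 2) hn)
  have h3 : DefP fun X v => g X v + 1 < N0 Φ X := DefP.lt (Def.add hg (Def.const 1)) hn
  have h4 : DefP fun X v => (h X v = 2 ↔ f X v % 2 = 0) :=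
    DefP.iff (DefP.eq hh (Def.const 2)) (DefP.eq (Def.mod hf (Def.const 2)) (Def.const 0))
  refine (Def.ite (DefP.lt hh (Def.const 2))
    (Def.ite h2 h1 (Def.sub (Def.sub hn (Def.const 1)) hg))
    (Def.ite (DefP.lt hh (Def.const 4))
      (Def.ite (DefP.or h3 h4) h1
        (Def.ite h2 (Def.mul (Def.add hf (Def.const 1)) hn) (Def.const 0))) h1)).congr
    fun X v => ?_
  unfold lo
  split_ifs <;> rfl

theorem def_hi (hf : Def f) (hg : Def g) (hh : Def h) :
    Def fun X v => hi (N0 Φ X) (N0 Φ X) (f X v) (g X v) (h X v) := by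
  have hn := def_N0 Φ
  have h1 : Def fun X v => f X v * N0 Φ X + g X v := Def.add (Def.mul hf hn) hg
  have h2 : DefP fun X v => f X v + 1 < 2 * N0 Φ X :=
    DefP.lt (Def.add hf (Def.const 1)) (Def.mul (Def.const 2) hn)
  have h3 : DefP fun X v => g X v + 1 < N0 Φ X := DefP.lt (Def.add hg (Def.const 1)) hn
  have h4 : DefP fun X v => (h X v = 2 ↔ f X v % 2 = 0) :=
    DefP.iff (DefP.eq hh (Def.const 2)) (DefP.eq (Def.mod hf (Def.const 2)) (Def.const 0))
  refine (Def.ite (DefP.lt hh (Def.const 2))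
    (Def.ite h2 (Def.add (Def.mul (Def.add hf (Def.const 1)) hn)
      (Def.sub (Def.sub hn (Def.const 1)) hg)) h1)
    (Def.ite (DefP.lt hh (Def.const 4))
      (Def.ite h3 (Def.add h1 (Def.const 1)) (Def.ite h4 h1
        (Def.ite h2 (Def.mul (Def.add hf (Def.const 1)) hn) (Def.const 0)))) h1)).congr
    fun X v => ?_
  unfold hi
  split_ifs <;> rfl

theorem def_P (hf : Def f) : Def fun X v => P (N0 Φ X) (mem1 Φ X) (f X v) := by
  have hn := def_N0 Φ
  have hk : Def fun X v => f X v / 5 / N0 Φ X := Def.div (Def.div hf (Def.const 5)) hn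
  have hi : Def fun X v => f X v / 5 % N0 Φ X := Def.mod (Def.div hf (Def.const 5)) hn
  have hy : Def fun X v => f X v % 5 := Def.mod hf (Def.const 5)
  refine (Def.ite (DefP.lt hy (Def.const 4)) (def_len hk hi hy)
    (Def.sub (Def.const 5) (def_cc (Φ := Φ) hk hi))).congr fun X v => ?_
  unfold P
  split_ifs <;> rfl

theorem def_R (hf : Def f) : Def fun X v => R (N0 Φ X) (N0 Φ X) (mem1 Φ X) (f X v) := by
  have hn := def_N0 Φ
  have hk : Def fun X v => f X v / 5 / N0 Φ X := Def.div (Def.div hf (Def.const 5)) hn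
  have hi : Def fun X v => f X v / 5 % N0 Φ X := Def.mod (Def.div hf (Def.const 5)) hn
  have hy : Def fun X v => f X v % 5 := Def.mod hf (Def.const 5)
  refine (Def.ite (DefP.lt hy (Def.const 4)) (Def.mul (Def.const 80) (def_lo (Φ := Φ) hk hi hy))
    (Def.add (Def.add (Def.mul (Def.const 80) (Def.div hf (Def.const 5))) (Def.const 75))
      (def_cc (Φ := Φ) hk hi))).congr fun X v => ?_
  unfold R
  split_ifs <;> rfl

theorem def_D (hf : Def f) : Def fun X v => D (N0 Φ X) (N0 Φ X) (f X v) := by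
  have hn := def_N0 Φ
  have hk : Def fun X v => f X v / 5 / N0 Φ X := Def.div (Def.div hf (Def.const 5)) hn
  have hi : Def fun X v => f X v / 5 % N0 Φ X := Def.mod (Def.div hf (Def.const 5)) hn
  have hy : Def fun X v => f X v % 5 := Def.mod hf (Def.const 5)
  exact Def.add (Def.mul (Def.const 80) (def_hi (Φ := Φ) hk hi hy)) (Def.const 80)

/-- the `F`-th number of the instance: the threshold `0`, then five numbers for each job -/
noncomputable def num (n C : ℕ) (mem : ℕ → ℕ → Prop) (F : ℕ) : ℕ :=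
  if F = 0 then 0
  else if (F - 1) % 5 = 0 then P n mem ((F - 1) / 5)
  else if (F - 1) % 5 = 1 then R n C mem ((F - 1) / 5)
  else if (F - 1) % 5 = 2 then 0
  else if (F - 1) % 5 = 3 then D n C ((F - 1) / 5)
  else 1

theorem def_num (hf : Def f) : Def fun X v => num (N0 Φ X) (N0 Φ X) (mem1 Φ X) (f X v) := by
  have h1 : Def fun X v => (f X v - 1) % 5 := Def.mod (Def.sub hf (Def.const 1)) (Def.const 5)
  have h2 : Def fun X v => (f X v - 1) / 5 := Def.div (Def.sub hf (Def.const 1)) (Def.const 5)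
  refine (Def.ite (DefP.eq hf (Def.const 0)) (Def.const 0)
    (Def.ite (DefP.eq h1 (Def.const 0)) (def_P (Φ := Φ) h2)
      (Def.ite (DefP.eq h1 (Def.const 1)) (def_R (Φ := Φ) h2)
        (Def.ite (DefP.eq h1 (Def.const 2)) (Def.const 0)
          (Def.ite (DefP.eq h1 (Def.const 3)) (def_D (Φ := Φ) h2) (Def.const 1)))))).congr fun X v => ?_
  unfold num
  split_ifs <;> rfl

end Pool.Agent.Helper61.Sched
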