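import Pool.Agent.Helper61.Sched.Core3

/-!
# Schedules and placements
-/

set_option autoImplicit false

namespace Pool.Agent.Helper61.Sched

open Classical

/-! ### Windows in linear order -/

theorem lex_le {n k i a b : ℕ} (hi : i < n) (hb : b < n) :
    k * n + i ≤ a * n + b ↔ k < a ∨ (k = a ∧ i ≤ b) := by
  constructor
  · intro h
    rcases lt_trichotomy k a with h1 | h1 | h1
    · exact Or.inl h1
    · subst h1
      exact Or.inr ⟨rfl, by omega⟩
    · exfalso
      have h2 : (a + 1) * n ≤ k * n := Nat.mul_le_mul_right n h1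
      rw [Nat.add_mul] at h2
      omega
  · rintro (h | ⟨rfl, h⟩)
    · have h2 : (k + 1) * n ≤ a * n := Nat.mul_le_mul_right n h
      rw [Nat.add_mul] at h2
      omega
    · omega

/-- first slot (in linear order) of the window of the job `(k, i, y)` -/
def lo (n C k i y : ℕ) : ℕ :=
  if y < 2 then (if k + 1 < 2 * C then k * n + i else n - 1 - i)
  else if y < 4 then
    (if i + 1 < n ∨ (y = 2 ↔ k % 2 = 0) then k * n + i
      else if k + 1 < 2 * C then (k + 1) * n else 0)
  else k * n + i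

/-- last slot (in linear order) of the window of the job `(k, i, y)` -/
def hi (n C k i y : ℕ) : ℕ :=
  if y < 2 then (if k + 1 < 2 * C then (k + 1) * n + (n - 1 - i) else k * n + i)
  else if y < 4 then
    (if i + 1 < n then k * n + i + 1
      else if (y = 2 ↔ k % 2 = 0) then k * n + i
      else if k + 1 < 2 * C then (k + 1) * n else 0)
  else k * n + i

theorem inWin_iff {n C k i y a b : ℕ} (hk : k < 2 * C) (hin : i < n) (hy : y < 4)
    (ha : a < 2 * C) (hb : b < n) :
    InWin n C k i y (a, b) ↔ lo n C k i y ≤ a * n + b ∧ a * n + b ≤ hi n C k i y := by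
  have hi' : n - 1 - i < n := by omega
  unfold InWin lo hi
  by_cases hy2 : y < 2
  · rw [if_pos hy2, if_pos hy2, if_pos hy2]
    by_cases hk1 : k + 1 < 2 * C
    · rw [if_pos hk1, if_pos hk1, if_pos hk1, lex_le hin hb, lex_le hb hi']
      simp only
      omega
    · rw [if_neg hk1, if_neg hk1, if_neg hk1, lex_le hb hin]
      have e : n - 1 - i = 0 * n + (n - 1 - i) := by omega
      have h1 := lex_le (k := 0) (a := a) hi' hb
      rw [← e] at h1
      rw [h1]
      simp only
      omega
  · rw [if_neg hy2, if_neg hy2, if_neg hy2, if_pos hy, if_pos hy]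
    by_cases hi1 : i + 1 < n
    · rw [if_pos hi1, if_pos hi1, if_pos (Or.inl hi1), lex_le hin hb, add_assoc (k * n) i 1,
        lex_le hb hi1]
      simp only [Prod.mk.injEq]
      omega
    · rw [if_neg hi1, if_neg hi1]
      by_cases hp : (y = 2 ↔ k % 2 = 0)
      · rw [if_pos hp, if_pos (Or.inr hp), if_pos hp, lex_le hin hb, lex_le hb hin]
        simp only [Prod.mk.injEq]
        omega
      · rw [if_neg hp, if_neg (by tauto), if_neg hp]
        unfold nx
        rw [if_neg hi1]
        by_cases hk1 : k + 1 < 2 * C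
        · rw [if_pos hk1, if_pos hk1]
          have h1 := lex_le (k := k + 1) (i := 0) (a := a) (b := b) (n := n) (by omega) hb
          have h2 := lex_le (k := a) (i := b) (a := k + 1) (b := 0) (n := n) hb (by omega)
          rw [Nat.add_zero] at h1 h2
          rw [h1, h2]
          simp only [Prod.mk.injEq]
          omega
        · rw [if_neg hk1, if_neg hk1]
          simp only [Prod.mk.injEq]
          constructor
          · rintro ⟨rfl, rfl⟩
            simp
          · rintro ⟨-, h⟩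
            have h3 : a * n = 0 := by omega
            rcases Nat.mul_eq_zero.1 h3 with h4 | h4
            · exact ⟨h4, by omega⟩
            · omega

theorem hi_lt {n C k i y : ℕ} (hC : 0 < C) (hk : k < 2 * C) (hin : i < n) (hy : y < 5) :
    hi n C k i y < 2 * C * n := by
  have h1 : (k + 1) * n ≤ 2 * C * n := Nat.mul_le_mul_right n hk
  have h1' := h1
  rw [Nat.add_mul] at h1
  have h2 : k + 1 < 2 * C → (k + 1 + 1) * n ≤ 2 * C * n := fun h => Nat.mul_le_mul_right n h
  rw [Nat.add_mul (k + 1)] at h2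
  have h3 : 0 < 2 * C * n := Nat.mul_pos (by omega) (by omega)
  unfold hi
  split_ifs with g1 g2 g3 g4 g5 g6
  · have := h2 g2; omega
  · omega
  · omega
  · omega
  · have := h2 g6; omega
  · exact h3
  · omega

/-! ### Data of the jobs, indexed by `z < 5 T` -/

/-- processing times -/
noncomputable def P (n : ℕ) (mem : ℕ → ℕ → Prop) (z : ℕ) : ℕ :=
  if z % 5 < 4 then len (z / 5 / n) (z / 5 % n) (z % 5)
  else 5 - cc n mem (z / 5 / n) (z / 5 % n)

/-- release dates -/
noncomputable def R (n C : ℕ) (mem : ℕ → ℕ → Prop) (z : ℕ) : ℕ :=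
  if z % 5 < 4 then 80 * lo n C (z / 5 / n) (z / 5 % n) (z % 5)
  else 80 * (z / 5) + 75 + cc n mem (z / 5 / n) (z / 5 % n)

/-- due dates -/
def D (n C : ℕ) (z : ℕ) : ℕ := 80 * hi n C (z / 5 / n) (z / 5 % n) (z % 5) + 80

/-- number of the job `(k, i, y)` -/
def zn (n k i y : ℕ) : ℕ := 5 * (k * n + i) + y

theorem zn_mod {n k i y : ℕ} (hy : y < 5) : zn n k i y % 5 = y := by unfold zn; omega

theorem zn_div {n k i y : ℕ} (hy : y < 5) : zn n k i y / 5 = k * n + i := by unfold zn; omega

theorem div_of {n k i : ℕ} (hin : i < n) : (k * n + i) / n = k := by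
  rw [mul_comm, Nat.mul_add_div (by omega), Nat.div_eq_of_lt hin, add_zero]

theorem mod_of {n k i : ℕ} (hin : i < n) : (k * n + i) % n = i := by
  rw [mul_comm, Nat.mul_add_mod, Nat.mod_eq_of_lt hin]

theorem zn_lt {n C k i y : ℕ} (hk : k < 2 * C) (hin : i < n) (hy : y < 5) :
    zn n k i y < 5 * (2 * C * n) := by
  have h1 : (k + 1) * n ≤ 2 * C * n := Nat.mul_le_mul_right n hk
  rw [Nat.add_mul] at h1
  unfold zn
  omega

theorem z_eq {n z : ℕ} : zn n (z / 5 / n) (z / 5 % n) (z % 5) = z := by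
  unfold zn
  have h1 := Nat.div_add_mod (z / 5) n
  rw [mul_comm] at h1
  rw [h1]
  omega

theorem z_lt {n C z : ℕ} (hn : 0 < n) (hz : z < 5 * (2 * C * n)) :
    z / 5 / n < 2 * C ∧ z / 5 % n < n ∧ z % 5 < 5 := by
  refine ⟨?_, Nat.mod_lt _ hn, Nat.mod_lt _ (by norm_num)⟩
  rw [Nat.div_lt_iff_lt_mul hn]
  omega

/-- Total length of disjoint intervals inside an interval. -/
theorem sum_le_of_disjoint {ι : Type} (A : Finset ι) (S p : ι → ℝ) (a b : ℝ) (hab : a ≤ b)
    (hp : ∀ j ∈ A, 0 ≤ p j) (hd : ∀ i ∈ A, ∀ j ∈ A, i ≠ j →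
      Disjoint (Set.Ico (S i) (S i + p i)) (Set.Ico (S j) (S j + p j)))
    (hsub : ∀ j ∈ A, a ≤ S j ∧ S j + p j ≤ b) : ∑ j ∈ A, p j ≤ b - a := by
  have h1 : MeasureTheory.volume (⋃ j ∈ A, Set.Ico (S j) (S j + p j)) =
      ∑ j ∈ A, MeasureTheory.volume (Set.Ico (S j) (S j + p j)) := by
    apply MeasureTheory.measure_biUnion_finset
    · intro i hi j hj hij
      exact hd i hi j hj hij
    · intro j _
      exact measurableSet_Ico
  have h2 : MeasureTheory.volume (⋃ j ∈ A, Set.Ico (S j) (S j + p j)) ≤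
      MeasureTheory.volume (Set.Ico a b) := by
    apply MeasureTheory.measure_mono
    apply Set.iUnion₂_subset
    intro j hj
    exact Set.Ico_subset_Ico (hsub j hj).1 (hsub j hj).2
  rw [h1] at h2
  simp only [Real.volume_Ico, add_sub_cancel_left] at h2
  rw [← ENNReal.ofReal_sum_of_nonneg hp] at h2
  exact (ENNReal.ofReal_le_ofReal_iff (by linarith)).1 h2

section

variable {n C : ℕ} {mem : ℕ → ℕ → Prop}

theorem P_pos (z : ℕ) : 0 < P n mem z := by
  have h := cc_le n mem (z / 5 / n) (z / 5 % n)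
  unfold P len rb mb
  split_ifs <;> omega

/-- **Soundness**: a schedule without tardy jobs gives a placement. -/
theorem plc_of_schedule (hC : 0 < C) (hn0 : 0 < n) (S : ℕ → ℝ)
    (h1 : ∀ z < 5 * (2 * C * n), (R n C mem z : ℝ) ≤ S z)
    (h2 : ∀ z < 5 * (2 * C * n), S z + P n mem z ≤ D n C z)
    (h3 : ∀ z < 5 * (2 * C * n), ∀ z' < 5 * (2 * C * n), z ≠ z' →
      Disjoint (Set.Ico (S z) (S z + P n mem z)) (Set.Ico (S z') (S z' + P n mem z'))) :
    ∃ pos, Plc n C mem pos := by
  set σ : ℕ → ℕ := fun z => ⌊S z / 80⌋₊ with hσ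
  -- properties of the slot of a free job
  have key : ∀ z < 5 * (2 * C * n), z % 5 < 4 →
      lo n C (z / 5 / n) (z / 5 % n) (z % 5) ≤ σ z ∧
      σ z ≤ hi n C (z / 5 / n) (z / 5 % n) (z % 5) ∧ σ z < 2 * C * n ∧
      (80 * σ z : ℝ) ≤ S z ∧ S z + P n mem z ≤ 80 * σ z + 75 + cc n mem (σ z / n) (σ z % n) := by
    intro z hz hy
    have hR := h1 z hz
    have hD := h2 z hz
    have hP : (0 : ℝ) < P n mem z := by exact_mod_cast P_pos z
    have hR' : R n C mem z = 80 * lo n C (z / 5 / n) (z / 5 % n) (z % 5) := if_pos hy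
    rw [hR'] at hR
    push_cast at hR
    unfold D at hD
    push_cast at hD
    have hS0 : 0 ≤ S z := by
      have : (0 : ℝ) ≤ (lo n C (z / 5 / n) (z / 5 % n) (z % 5) : ℝ) := Nat.cast_nonneg _
      linarith
    have hf1 : (σ z : ℝ) ≤ S z / 80 := Nat.floor_le (by positivity)
    have hf2 : S z / 80 < σ z + 1 := Nat.lt_floor_add_one _
    have hlo : lo n C (z / 5 / n) (z / 5 % n) (z % 5) ≤ σ z := by
      apply Nat.le_floor
      linarith
    have hhi : σ z ≤ hi n C (z / 5 / n) (z / 5 % n) (z % 5) := by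
      have h4 : (σ z : ℝ) < (hi n C (z / 5 / n) (z / 5 % n) (z % 5) : ℝ) + 1 := by linarith
      have h5 : σ z < hi n C (z / 5 / n) (z / 5 % n) (z % 5) + 1 := by exact_mod_cast h4
      omega
    obtain ⟨g1, g2, g3⟩ := z_lt hn0 hz
    have hT := hi_lt hC g1 g2 g3
    have hσT : σ z < 2 * C * n := by omega
    refine ⟨hlo, hhi, hσT, by linarith, ?_⟩
    -- the blocker
    have hzb : 5 * σ z + 4 < 5 * (2 * C * n) := by omega
    have hb1 := h1 _ hzb
    have hb2 := h2 _ hzb
    have hb3 := h3 z hz _ hzb (by omega)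
    have e5 : (5 * σ z + 4) % 5 = 4 := by omega
    have e6 : (5 * σ z + 4) / 5 = σ z := by omega
    have hcc := cc_le n mem (σ z / n) (σ z % n)
    have hRb : R n C mem (5 * σ z + 4) = 80 * σ z + 75 + cc n mem (σ z / n) (σ z % n) := by
      unfold R
      rw [if_neg (by omega), e6]
    have hPb : P n mem (5 * σ z + 4) = 5 - cc n mem (σ z / n) (σ z % n) := by
      unfold P
      rw [if_neg (by omega), e6]
    have hDb : D n C (5 * σ z + 4) = 80 * σ z + 80 := by
      unfold D hi
      rw [e5, e6, if_neg (by norm_num), if_neg (by norm_num)]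
      have := Nat.div_add_mod (σ z) n
      rw [mul_comm] at this
      rw [this]
    rw [hRb] at hb1
    rw [hPb, hDb] at hb2
    rw [hPb] at hb3
    rw [Nat.cast_sub (by omega)] at hb2 hb3
    push_cast at hb1 hb2 hb3
    by_contra hcon
    push Not at hcon
    have hSb : S (5 * σ z + 4) = 80 * σ z + 75 + cc n mem (σ z / n) (σ z % n) := by linarith
    have hcc' : (cc n mem (σ z / n) (σ z % n) : ℝ) ≤ 4 := by exact_mod_cast hcc
    rw [Set.disjoint_left] at hb3
    apply hb3 (a := max (S z) (S (5 * σ z + 4)))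
    · constructor
      · exact le_max_left _ _
      · apply max_lt
        · linarith
        · rw [hSb]; exact hcon
    · constructor
      · exact le_max_right _ _
      · apply max_lt
        · rw [hSb]
          linarith
        · linarith
  refine ⟨fun k i y => (σ (zn n k i y) / n, σ (zn n k i y) % n), ?_, ?_, ?_⟩
  · intro k hk i hi y hy
    have hz := zn_lt (y := y) hk hi (by omega)
    obtain ⟨-, -, g3, -, -⟩ := key _ hz (by rw [zn_mod (by omega)]; exact hy)
    refine ⟨?_, Nat.mod_lt _ hn0⟩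
    simp only
    rw [Nat.div_lt_iff_lt_mul hn0]
    exact g3
  · intro k hk i hi' y hy
    have hz := zn_lt (y := y) hk hi' (by omega)
    have e1 := zn_mod (n := n) (k := k) (i := i) (y := y) (by omega)
    have e2 := zn_div (n := n) (k := k) (i := i) (y := y) (by omega)
    obtain ⟨g1, g2, g3, -, -⟩ := key _ hz (by rw [e1]; exact hy)
    rw [e1, e2, div_of hi', mod_of hi'] at g1 g2
    rw [inWin_iff hk hi' hy (by rw [Nat.div_lt_iff_lt_mul hn0]; exact g3) (Nat.mod_lt _ hn0)]
    have := Nat.div_add_mod (σ (zn n k i y)) n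
    rw [mul_comm] at this
    rw [this]
    exact ⟨g1, g2⟩
  · intro a ha b hb A hA
    have hs : ∀ j ∈ A, σ (zn n j.1 j.2.1 j.2.2) = a * n + b := by
      intro j hj
      obtain ⟨-, -, -, e⟩ := hA j hj
      simp only [Prod.mk.injEq] at e
      have := Nat.div_add_mod (σ (zn n j.1 j.2.1 j.2.2)) n
      rw [mul_comm, e.1, e.2] at this
      exact this.symm
    have hP : ∀ j ∈ A, P n mem (zn n j.1 j.2.1 j.2.2) = len j.1 j.2.1 j.2.2 := by
      intro j hj
      obtain ⟨g1, g2, g3, -⟩ := hA j hj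
      unfold P
      rw [zn_mod (by omega), zn_div (by omega), div_of g2, mod_of g2, if_pos g3]
    have hcc := cc_le n mem a b
    have h4 := sum_le_of_disjoint A (fun j => S (zn n j.1 j.2.1 j.2.2))
      (fun j => (len j.1 j.2.1 j.2.2 : ℝ)) (80 * (a * n + b : ℕ))
      (80 * (a * n + b : ℕ) + 75 + cc n mem a b)
      (by
        have : (0 : ℝ) ≤ (cc n mem a b : ℝ) := Nat.cast_nonneg _
        linarith)
      (fun j _ => Nat.cast_nonneg _)
      (by
        intro i hi j hj hij
        obtain ⟨g1, g2, g3, -⟩ := hA i hi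
        obtain ⟨g1', g2', g3', -⟩ := hA j hj
        have hne : zn n i.1 i.2.1 i.2.2 ≠ zn n j.1 j.2.1 j.2.2 := by
          intro e
          apply hij
          have e1 : zn n i.1 i.2.1 i.2.2 % 5 = zn n j.1 j.2.1 j.2.2 % 5 := by rw [e]
          have e2 : zn n i.1 i.2.1 i.2.2 / 5 = zn n j.1 j.2.1 j.2.2 / 5 := by rw [e]
          rw [zn_mod (by omega), zn_mod (by omega)] at e1
          rw [zn_div (by omega), zn_div (by omega)] at e2
          have e3 : (i.1 * n + i.2.1) / n = (j.1 * n + j.2.1) / n := by rw [e2]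
          have e4 : (i.1 * n + i.2.1) % n = (j.1 * n + j.2.1) % n := by rw [e2]
          rw [div_of g2, div_of g2'] at e3
          rw [mod_of g2, mod_of g2'] at e4
          exact Prod.ext e3 (Prod.ext e4 e1)
        have := h3 _ (zn_lt g1 g2 (by omega)) _ (zn_lt g1' g2' (by omega)) hne
        rw [hP i hi, hP j hj] at this
        exact this)
      (by
        intro j hj
        obtain ⟨g1, g2, g3, -⟩ := hA j hj
        obtain ⟨-, -, -, k4, k5⟩ := key _ (zn_lt (y := j.2.2) g1 g2 (by omega))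
          (by rw [zn_mod (by omega)]; exact g3)
        rw [hs j hj] at k4 k5
        rw [hP j hj, div_of hb, mod_of hb] at k5
        exact ⟨k4, k5⟩)
    have h5 : (∑ j ∈ A, (len j.1 j.2.1 j.2.2 : ℝ)) ≤ 75 + cc n mem a b := by linarith
    exact_mod_cast h5

end

end Pool.Agent.Helper61.Sched
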