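import Pool.Agent.Helper61.Sched.Real

/-!
# Placements give schedules
-/

set_option autoImplicit false

namespace Pool.Agent.Helper61.Sched

open Classical

section

variable {n C : ℕ} {mem : ℕ → ℕ → Prop} {pos : ℕ → ℕ → ℕ → ℕ × ℕ}

/-- slot of the job `z` in linear order -/
def tau (n : ℕ) (pos : ℕ → ℕ → ℕ → ℕ × ℕ) (z : ℕ) : ℕ :=
  if z % 5 < 4 then (pos (z / 5 / n) (z / 5 % n) (z % 5)).1 * n +
    (pos (z / 5 / n) (z / 5 % n) (z % 5)).2 else z / 5

/-- free jobs in the same slot before `z` -/
noncomputable def before (n : ℕ) (pos : ℕ → ℕ → ℕ → ℕ × ℕ) (z : ℕ) (m : ℕ) : Finset ℕ :=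
  (Finset.range m).filter fun z' => z' % 5 < 4 ∧ tau n pos z' = tau n pos z

/-- start times -/
noncomputable def st (n : ℕ) (mem : ℕ → ℕ → Prop) (pos : ℕ → ℕ → ℕ → ℕ × ℕ) (z : ℕ) : ℕ :=
  if z % 5 < 4 then 80 * tau n pos z + ∑ z' ∈ before n pos z z, P n mem z'
  else 80 * (z / 5) + 75 + cc n mem (z / 5 / n) (z / 5 % n)

theorem pre_le (h : Plc n C mem pos) (hn0 : 0 < n) {z : ℕ} (hz : z < 5 * (2 * C * n))
    (hy : z % 5 < 4) : ∑ z' ∈ before n pos z z, P n mem z' + P n mem z ≤
      75 + cc n mem (tau n pos z / n) (tau n pos z % n) := by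
  obtain ⟨g1, g2, g3⟩ := z_lt hn0 hz
  have hv := h.valid _ g1 _ g2 _ hy
  have hτ : tau n pos z = (pos (z / 5 / n) (z / 5 % n) (z % 5)).1 * n +
    (pos (z / 5 / n) (z / 5 % n) (z % 5)).2 := if_pos hy
  have h1 : before n pos z (z + 1) = insert z (before n pos z z) := by
    unfold before
    rw [Finset.range_add_one, Finset.filter_insert, if_pos ⟨hy, rfl⟩]
  have h2 : z ∉ before n pos z z := by
    unfold before
    simp
  have h3 : ∑ z' ∈ before n pos z z, P n mem z' + P n mem z =
      ∑ z' ∈ before n pos z (z + 1), P n mem z' := by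
    rw [h1, Finset.sum_insert h2, add_comm]
  rw [h3]
  have h4 : ∑ z' ∈ before n pos z (z + 1), P n mem z' =
      ∑ j ∈ (before n pos z (z + 1)).image (fun z' => ((z' / 5 / n, z' / 5 % n, z' % 5) :
        ℕ × ℕ × ℕ)), len j.1 j.2.1 j.2.2 := by
    rw [Finset.sum_image]
    · apply Finset.sum_congr rfl
      intro z' hz'
      unfold before at hz'
      rw [Finset.mem_filter] at hz'
      unfold P
      rw [if_pos hz'.2.1]
    · intro x _ y _ e
      simp only [Prod.mk.injEq] at e
      rw [← z_eq (n := n) (z := x), ← z_eq (n := n) (z := y), e.1, e.2.1, e.2.2]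
  rw [h4, hτ, div_of hv.2, mod_of hv.2]
  apply h.vol _ hv.1 _ hv.2
  intro j hj
  rw [Finset.mem_image] at hj
  obtain ⟨z', hz', rfl⟩ := hj
  unfold before at hz'
  rw [Finset.mem_filter, Finset.mem_range] at hz'
  obtain ⟨k1, k2, k3⟩ := z_lt (z := z') (C := C) hn0 (by omega)
  have hv' := h.valid _ k1 _ k2 _ hz'.2.1
  refine ⟨k1, k2, hz'.2.1, ?_⟩
  have e1 : tau n pos z' = (pos (z' / 5 / n) (z' / 5 % n) (z' % 5)).1 * n +
    (pos (z' / 5 / n) (z' / 5 % n) (z' % 5)).2 := if_pos hz'.2.1
  have e2 := hz'.2.2
  rw [hτ, e1] at e2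
  have e3 := (lex_le hv'.2 hv.2).1 e2.le
  have e4 := (lex_le hv.2 hv'.2).1 e2.ge
  simp only
  exact Prod.ext (by omega) (by omega)

/-- **Completeness**: a placement gives a schedule without tardy jobs. -/
theorem schedule_of_plc (h : Plc n C mem pos) (hn0 : 0 < n) :
    (∀ z < 5 * (2 * C * n), R n C mem z ≤ st n mem pos z) ∧
    (∀ z < 5 * (2 * C * n), st n mem pos z + P n mem z ≤ D n C z) ∧
    ∀ z < 5 * (2 * C * n), ∀ z' < 5 * (2 * C * n), z ≠ z' →
      st n mem pos z + P n mem z ≤ st n mem pos z' ∨
      st n mem pos z' + P n mem z' ≤ st n mem pos z := by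
  have hwin : ∀ z < 5 * (2 * C * n), z % 5 < 4 →
      lo n C (z / 5 / n) (z / 5 % n) (z % 5) ≤ tau n pos z ∧
      tau n pos z ≤ hi n C (z / 5 / n) (z / 5 % n) (z % 5) := by
    intro z hz hy
    obtain ⟨g1, g2, g3⟩ := z_lt hn0 hz
    have hv := h.valid _ g1 _ g2 _ hy
    have hw := h.win _ g1 _ g2 _ hy
    have hτ : tau n pos z = (pos (z / 5 / n) (z / 5 % n) (z % 5)).1 * n +
      (pos (z / 5 / n) (z / 5 % n) (z % 5)).2 := if_pos hy
    rw [hτ]
    exact (inWin_iff g1 g2 hy hv.1 hv.2).1 hw
  -- bounds inside the slot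
  have hbd : ∀ z < 5 * (2 * C * n), 80 * tau n pos z ≤ st n mem pos z ∧
      st n mem pos z + P n mem z ≤ 80 * tau n pos z + 80 ∧
      (z % 5 < 4 → st n mem pos z + P n mem z ≤
        80 * tau n pos z + 75 + cc n mem (tau n pos z / n) (tau n pos z % n)) := by
    intro z hz
    by_cases hy : z % 5 < 4
    · have h1 := pre_le h hn0 hz hy
      have h2 := cc_le n mem (tau n pos z / n) (tau n pos z % n)
      unfold st
      rw [if_pos hy]
      omega
    · have h2 := cc_le n mem (z / 5 / n) (z / 5 % n)
      have h3 : tau n pos z = z / 5 := if_neg hy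
      have h4 : P n mem z = 5 - cc n mem (z / 5 / n) (z / 5 % n) := if_neg hy
      unfold st
      rw [if_neg hy, h3, h4]
      omega
  refine ⟨?_, ?_, ?_⟩
  · intro z hz
    by_cases hy : z % 5 < 4
    · have h1 := (hwin z hz hy).1
      unfold R st
      rw [if_pos hy, if_pos hy]
      omega
    · unfold R st
      rw [if_neg hy, if_neg hy]
  · intro z hz
    obtain ⟨-, h1, -⟩ := hbd z hz
    by_cases hy : z % 5 < 4
    · have h2 := (hwin z hz hy).2
      unfold D
      omega
    · have h3 : tau n pos z = z / 5 := if_neg hy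
      have h4 : hi n C (z / 5 / n) (z / 5 % n) (z % 5) = z / 5 := by
        unfold hi
        rw [if_neg (by omega), if_neg hy]
        have := Nat.div_add_mod (z / 5) n
        rw [mul_comm] at this
        exact this
      unfold D
      rw [h4]
      omega
  · have main : ∀ z < 5 * (2 * C * n), ∀ z' < 5 * (2 * C * n), z < z' →
        st n mem pos z + P n mem z ≤ st n mem pos z' ∨
        st n mem pos z' + P n mem z' ≤ st n mem pos z := by
      intro z hz z' hz' hlt
      obtain ⟨a1, a2, a3⟩ := hbd z hz
      obtain ⟨b1, b2, b3⟩ := hbd z' hz'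
      rcases lt_trichotomy (tau n pos z) (tau n pos z') with hτ | hτ | hτ
      · left; omega
      · by_cases hy : z % 5 < 4 <;> by_cases hy' : z' % 5 < 4
        · left
          have e1 : st n mem pos z = 80 * tau n pos z + ∑ w ∈ before n pos z z, P n mem w :=
            if_pos hy
          have e2 : st n mem pos z' = 80 * tau n pos z' + ∑ w ∈ before n pos z' z', P n mem w :=
            if_pos hy'
          rw [e1, e2, ← hτ]
          have h1 : insert z (before n pos z z) ⊆ before n pos z' z' := by
            intro w hw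
            unfold before at hw ⊢
            rw [Finset.mem_insert, Finset.mem_filter, Finset.mem_range] at hw
            rw [Finset.mem_filter, Finset.mem_range, ← hτ]
            rcases hw with rfl | ⟨h5, h6, h7⟩
            · exact ⟨hlt, hy, rfl⟩
            · exact ⟨by omega, h6, h7⟩
          have h2 : z ∉ before n pos z z := by
            unfold before
            simp
          have h3 := Finset.sum_le_sum_of_subset (f := fun w => P n mem w) h1
          rw [Finset.sum_insert h2] at h3
          omega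
        · left
          have a4 := a3 hy
          have h3 : tau n pos z' = z' / 5 := if_neg hy'
          have e2 : st n mem pos z' = 80 * (z' / 5) + 75 + cc n mem (z' / 5 / n) (z' / 5 % n) :=
            if_neg hy'
          rw [e2]
          rw [hτ, h3] at a4
          exact a4
        · right
          have b4 := b3 hy'
          have h3 : tau n pos z = z / 5 := if_neg hy
          have e2 : st n mem pos z = 80 * (z / 5) + 75 + cc n mem (z / 5 / n) (z / 5 % n) :=
            if_neg hy
          rw [e2]
          rw [← hτ, h3] at b4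
          exact b4
        · exfalso
          have h3 : tau n pos z' = z' / 5 := if_neg hy'
          have h4 : tau n pos z = z / 5 := if_neg hy
          rw [h3, h4] at hτ
          omega
      · right; omega
    intro z hz z' hz' hne
    rcases Nat.lt_or_gt_of_ne hne with h1 | h1
    · exact main z hz z' hz' h1
    · exact (main z' hz' z hz h1).symm

end

end Pool.Agent.Helper61.Sched
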