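import Pool.Agent.Helper61.Sched.Real2
import Pool.Agent.Helper96.Complexity

/-!
# Formulas in conjunctive normal form and exactly-one systems
-/

set_option autoImplicit false

namespace Pool.Agent.Helper61.Sched

open Classical Pool.Agent.Helper96

/-- complementary literal -/
def cmpl (a : ℕ) : ℕ := if a % 2 = 0 then a + 1 else a - 1

theorem cmpl_cmpl (a : ℕ) : cmpl (cmpl a) = a := by unfold cmpl; split_ifs <;> omega
theorem cmpl_ne (a : ℕ) : cmpl a ≠ a := by unfold cmpl; split_ifs <;> omega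
theorem cmpl_div (a : ℕ) : cmpl a / 2 = a / 2 := by unfold cmpl; split_ifs <;> omega
theorem cmpl_lt {a n : ℕ} (h : a < 2 * n) : cmpl a < 2 * n := by unfold cmpl; split_ifs <;> omega

variable (Φ : CNFData) (Y : Inp)

/-- number of literals -/
def q0 : ℕ := 2 * (Φ.n Y + 1)

/-- size of the system -/
def N0 : ℕ := (1 + 2 * Φ.m Y) * q0 Φ Y

/-- incidence in terms of blocks and literals -/
def mem0 (wz az wu au : ℕ) : Prop :=
  (wz = 0 ∧ wu = 0 ∧ (au = az ∨ au = cmpl az)) ∨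
  (wz % 2 = 1 ∧ ((wu = wz ∧ au = az) ∨ (wu = wz + 1 ∧ au = az) ∨ (wu = 0 ∧ au = cmpl az))) ∨
  (wz % 2 = 0 ∧ wz ≠ 0 ∧ wu + 1 = wz ∧ au / 2 < Φ.n Y ∧ Φ.lit Y (au / 2) (au % 2) (wz / 2 - 1))

/-- incidence of the exactly-one system -/
def mem1 (c v : ℕ) : Prop :=
  mem0 Φ Y (c / q0 Φ Y) (c % q0 Φ Y) (v / q0 Φ Y) (v % q0 Φ Y)

theorem q0_pos : 0 < q0 Φ Y := by unfold q0; omega

theorem N0_pos : 0 < N0 Φ Y := Nat.mul_pos (by omega) (q0_pos Φ Y)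

theorem N0_even : N0 Φ Y % 2 = 0 := by
  unfold N0 q0
  rw [show (1 + 2 * Φ.m Y) * (2 * (Φ.n Y + 1)) = 2 * ((1 + 2 * Φ.m Y) * (Φ.n Y + 1)) by ring]
  exact Nat.mul_mod_right 2 _

theorem ind_lt {w a : ℕ} (hw : w < 1 + 2 * Φ.m Y) (ha : a < q0 Φ Y) :
    w * q0 Φ Y + a < N0 Φ Y := by
  have h1 : (w + 1) * q0 Φ Y ≤ N0 Φ Y := Nat.mul_le_mul_right _ hw
  rw [Nat.add_mul] at h1
  omega

theorem mem1_iff {w a w' a' : ℕ} (ha : a < q0 Φ Y) (ha' : a' < q0 Φ Y) :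
    mem1 Φ Y (w * q0 Φ Y + a) (w' * q0 Φ Y + a') ↔ mem0 Φ Y w a w' a' := by
  unfold mem1
  rw [div_of ha, mod_of ha, div_of ha', mod_of ha']

theorem ind_eq (v : ℕ) : v / q0 Φ Y * q0 Φ Y + v % q0 Φ Y = v := by
  rw [mul_comm]; exact Nat.div_add_mod v _

theorem div_lt' {v : ℕ} (hv : v < N0 Φ Y) : v / q0 Φ Y < 1 + 2 * Φ.m Y := by
  rw [Nat.div_lt_iff_lt_mul (q0_pos Φ Y)]; exact hv

/-- values of the variables given values of literals and chosen literals -/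
def val (L : ℕ → Prop) (ch : ℕ → ℕ) (w a : ℕ) : Prop :=
  if w = 0 then L a else if w % 2 = 1 then a = ch (w / 2)
    else a ≠ ch (w / 2 - 1) ∧ ¬ L (cmpl a)

theorem sol_of_sat (h : ∃ α : Fin (Φ.n Y) → Bool, Φ.Sat Y α) :
    ∃ X, Sol (N0 Φ Y) (N0 Φ Y) (mem1 Φ Y) X := by
  obtain ⟨α, hα⟩ := h
  -- values of the literals
  let L : ℕ → Prop := fun a =>
    if h : a / 2 < Φ.n Y then (α ⟨a / 2, h⟩ = true ↔ a % 2 = 1) else a % 2 = 1
  have hL : ∀ a, L (cmpl a) ↔ ¬ L a := by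
    intro a
    simp only [L]
    have e1 := cmpl_div a
    have e2 : cmpl a % 2 = 1 ↔ ¬ (a % 2 = 1) := by unfold cmpl; split_ifs <;> omega
    by_cases h : a / 2 < Φ.n Y
    · have h' : cmpl a / 2 < Φ.n Y := by rw [e1]; exact h
      rw [dif_pos h, dif_pos h']
      have e3 : (⟨cmpl a / 2, h'⟩ : Fin (Φ.n Y)) = ⟨a / 2, h⟩ := Fin.ext e1
      rw [e3, e2]
      tauto
    · have h' : ¬ cmpl a / 2 < Φ.n Y := by rw [e1]; exact h
      rw [dif_neg h, dif_neg h', e2]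
  have hch : ∀ j, ∃ a, j < Φ.m Y → a < q0 Φ Y ∧ a / 2 < Φ.n Y ∧
      Φ.lit Y (a / 2) (a % 2) j ∧ L a := by
    intro j
    by_cases hj : j < Φ.m Y
    · obtain ⟨i, hi⟩ := hα j hj
      refine ⟨2 * i + (if α i = true then 1 else 0), fun _ => ?_⟩
      have h1 : (2 * (i : ℕ) + (if α i = true then 1 else 0)) / 2 = i := by split_ifs <;> omega
      have h2 : (2 * (i : ℕ) + (if α i = true then 1 else 0)) % 2 =
          (if α i = true then 1 else 0) := by split_ifs <;> omega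
      have h3 := i.2
      refine ⟨?_, ?_, ?_, ?_⟩
      · unfold q0; split_ifs <;> omega
      · rw [h1]; exact h3
      · rw [h1, h2]; exact hi
      · simp only [L]
        rw [dif_pos (by rw [h1]; exact h3), h2]
        have h4 : (⟨(2 * (i : ℕ) + (if α i = true then 1 else 0)) / 2, by rw [h1]; exact h3⟩ :
          Fin (Φ.n Y)) = i := Fin.ext h1
        rw [h4]
        by_cases h5 : α i = true <;> simp [h5]
    · exact ⟨0, fun h => absurd h hj⟩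
  choose ch hch using hch
  refine ⟨fun v => val L ch (v / q0 Φ Y) (v % q0 Φ Y), fun c hc => ?_⟩
  have hq := q0_pos Φ Y
  have haz : c % q0 Φ Y < q0 Φ Y := Nat.mod_lt _ hq
  have hwz := div_lt' Φ Y hc
  have hcm : cmpl (c % q0 Φ Y) < q0 Φ Y := cmpl_lt haz
  -- it suffices to find a unique block and literal
  suffices hs : ∃ w a, w < 1 + 2 * Φ.m Y ∧ a < q0 Φ Y ∧
      mem0 Φ Y (c / q0 Φ Y) (c % q0 Φ Y) w a ∧ val L ch w a ∧
      ∀ w' a', w' < 1 + 2 * Φ.m Y → a' < q0 Φ Y → mem0 Φ Y (c / q0 Φ Y) (c % q0 Φ Y) w' a' →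
        val L ch w' a' → w' = w ∧ a' = a by
    obtain ⟨w, a, hw, ha, h1, h2, h3⟩ := hs
    refine ⟨w * q0 Φ Y + a, ⟨ind_lt Φ Y hw ha, ?_, ?_⟩, ?_⟩
    · unfold mem1
      rw [div_of ha, mod_of ha]
      exact h1
    · simp only
      rw [div_of ha, mod_of ha]
      exact h2
    · rintro v ⟨g1, g2, g3⟩
      have h4 := h3 _ _ (div_lt' Φ Y g1) (Nat.mod_lt _ hq) g2 g3
      rw [← ind_eq Φ Y v, h4.1, h4.2]
  generalize c / q0 Φ Y = wz at *
  generalize c % q0 Φ Y = az at *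
  rcases Nat.eq_zero_or_pos wz with h0 | h0
  · -- one of two complementary literals
    subst h0
    by_cases hl : L az
    · refine ⟨0, az, by omega, haz, Or.inl ⟨rfl, rfl, Or.inl rfl⟩, ?_, ?_⟩
      · unfold val; rw [if_pos rfl]; exact hl
      · rintro w' a' - - (⟨-, rfl, h1 | h1⟩ | ⟨h1, -⟩ | ⟨-, h1, -⟩) h2
        · exact ⟨rfl, h1⟩
        · unfold val at h2
          rw [if_pos rfl, h1, hL] at h2
          exact absurd hl h2
        · omega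
        · exact absurd rfl h1
    · refine ⟨0, cmpl az, by omega, hcm, Or.inl ⟨rfl, rfl, Or.inr rfl⟩, ?_, ?_⟩
      · unfold val; rw [if_pos rfl, hL]; exact hl
      · rintro w' a' - - (⟨-, rfl, h1 | h1⟩ | ⟨h1, -⟩ | ⟨-, h1, -⟩) h2
        · unfold val at h2
          rw [if_pos rfl, h1] at h2
          exact absurd h2 hl
        · exact ⟨rfl, h1⟩
        · omega
        · exact absurd rfl h1
  · rcases Nat.mod_two_eq_zero_or_one wz with hp | hp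
    · -- a literal of the clause is chosen
      have hj : wz / 2 - 1 < Φ.m Y := by omega
      obtain ⟨c1, c2, c3, c4⟩ := hch _ hj
      have e1 : (wz - 1) / 2 = wz / 2 - 1 := by omega
      refine ⟨wz - 1, ch (wz / 2 - 1), by omega, c1,
        Or.inr (Or.inr ⟨hp, by omega, by omega, c2, c3⟩), ?_, ?_⟩
      · unfold val
        rw [if_neg (by omega), if_pos (by omega), e1]
      · rintro w' a' - - (⟨h1, -⟩ | ⟨h1, -⟩ | ⟨-, -, h1, -⟩) h2
        · omega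
        · omega
        · have e2 : w' = wz - 1 := by omega
          subst e2
          unfold val at h2
          rw [if_neg (by omega), if_pos (by omega), e1] at h2
          exact ⟨rfl, h2⟩
    · -- the chosen literal is true
      have hj : wz / 2 < Φ.m Y := by omega
      obtain ⟨c1, c2, c3, c4⟩ := hch _ hj
      have v1 : val L ch wz az ↔ az = ch (wz / 2) := by
        unfold val
        rw [if_neg (by omega), if_pos hp]
      have v2 : val L ch (wz + 1) az ↔ (az ≠ ch (wz / 2) ∧ ¬ L (cmpl az)) := by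
        unfold val
        rw [if_neg (by omega), if_neg (by omega), show (wz + 1) / 2 - 1 = wz / 2 by omega]
      have v3 : val L ch 0 (cmpl az) ↔ L (cmpl az) := by
        unfold val
        rw [if_pos rfl]
      have hmem : ∀ w' a', mem0 Φ Y wz az w' a' → (w' = wz ∧ a' = az) ∨
          (w' = wz + 1 ∧ a' = az) ∨ (w' = 0 ∧ a' = cmpl az) := by
        rintro w' a' (⟨h1, -⟩ | ⟨-, h1⟩ | ⟨h1, -⟩)
        · omega
        · exact h1
        · omega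
      by_cases hc1 : az = ch (wz / 2)
      · refine ⟨wz, az, hwz, haz, Or.inr (Or.inl ⟨hp, Or.inl ⟨rfl, rfl⟩⟩), v1.2 hc1, ?_⟩
        intro w' a' _ _ h1 h2
        rcases hmem _ _ h1 with ⟨rfl, rfl⟩ | ⟨rfl, rfl⟩ | ⟨rfl, rfl⟩
        · exact ⟨rfl, rfl⟩
        · exact absurd hc1 (v2.1 h2).1
        · have h3 := v3.1 h2
          rw [hL, hc1] at h3
          exact absurd c4 h3
      · by_cases hc2 : L (cmpl az)
        · refine ⟨0, cmpl az, by omega, hcm, Or.inr (Or.inl ⟨hp, Or.inr (Or.inr ⟨rfl, rfl⟩)⟩),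
            v3.2 hc2, ?_⟩
          intro w' a' _ _ h1 h2
          rcases hmem _ _ h1 with ⟨rfl, rfl⟩ | ⟨rfl, rfl⟩ | ⟨rfl, rfl⟩
          · exact absurd (v1.1 h2) hc1
          · exact absurd hc2 (v2.1 h2).2
          · exact ⟨rfl, rfl⟩
        · refine ⟨wz + 1, az, by omega, haz, Or.inr (Or.inl ⟨hp, Or.inr (Or.inl ⟨rfl, rfl⟩)⟩),
            v2.2 ⟨hc1, hc2⟩, ?_⟩
          intro w' a' _ _ h1 h2
          rcases hmem _ _ h1 with ⟨rfl, rfl⟩ | ⟨rfl, rfl⟩ | ⟨rfl, rfl⟩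
          · exact absurd (v1.1 h2) hc1
          · exact ⟨rfl, rfl⟩
          · exact absurd (v3.1 h2) hc2

theorem sat_of_sol (h : ∃ X, Sol (N0 Φ Y) (N0 Φ Y) (mem1 Φ Y) X) :
    ∃ α : Fin (Φ.n Y) → Bool, Φ.Sat Y α := by
  obtain ⟨X, hX⟩ := h
  have hq := q0_pos Φ Y
  -- values by blocks
  let V : ℕ → ℕ → Prop := fun w a => X (w * q0 Φ Y + a)
  have hV : ∀ w a, w < 1 + 2 * Φ.m Y → a < q0 Φ Y → ∃ w' a', w' < 1 + 2 * Φ.m Y ∧ a' < q0 Φ Y ∧
      mem0 Φ Y w a w' a' ∧ V w' a' ∧ ∀ w'' a'', w'' < 1 + 2 * Φ.m Y → a'' < q0 Φ Y →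
        mem0 Φ Y w a w'' a'' → V w'' a'' → w'' = w' ∧ a'' = a' := by
    intro w a hw ha
    obtain ⟨v, ⟨h1, h2, h3⟩, h4⟩ := hX (w * q0 Φ Y + a) (ind_lt Φ Y hw ha)
    refine ⟨v / q0 Φ Y, v % q0 Φ Y, div_lt' Φ Y h1, Nat.mod_lt _ hq, ?_, ?_, ?_⟩
    · unfold mem1 at h2
      rw [div_of ha, mod_of ha] at h2
      exact h2
    · simp only [V]
      rw [ind_eq]
      exact h3
    · intro w'' a'' g1 g2 g3 g4
      have h5 := h4 (w'' * q0 Φ Y + a'') ⟨ind_lt Φ Y g1 g2, (mem1_iff Φ Y ha g2).2 g3, g4⟩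
      rw [← h5, div_of g2, mod_of g2]
      exact ⟨rfl, rfl⟩
  -- literals
  have hlit : ∀ a, a < q0 Φ Y → (V 0 a ↔ ¬ V 0 (cmpl a)) := by
    intro a ha
    have hca : cmpl a < q0 Φ Y := cmpl_lt ha
    obtain ⟨w', a', h1, h2, h3, h4, h5⟩ := hV 0 a (by omega) ha
    have m1 : mem0 Φ Y 0 a 0 a := Or.inl ⟨rfl, rfl, Or.inl rfl⟩
    have m2 : mem0 Φ Y 0 a 0 (cmpl a) := Or.inl ⟨rfl, rfl, Or.inr rfl⟩
    constructor
    · intro g1 g2
      have h6 := h5 0 a (by omega) ha m1 g1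
      have h7 := h5 0 (cmpl a) (by omega) hca m2 g2
      exact cmpl_ne a (h7.2.trans h6.2.symm)
    · intro g1
      rcases h3 with ⟨-, rfl, e | e⟩ | ⟨e, -⟩ | ⟨-, e, -⟩
      · rw [e] at h4; exact h4
      · rw [e] at h4; exact absurd h4 g1
      · omega
      · exact absurd rfl e
  refine ⟨fun i => decide (V 0 (2 * i + 1)), fun j hj => ?_⟩
  obtain ⟨w', a', h1, h2, h3, h4, -⟩ := hV (2 * j + 2) 0 (by omega) hq
  rcases h3 with ⟨e, -⟩ | ⟨e, -⟩ | ⟨-, -, e1, e2, e3⟩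
  · omega
  · omega
  have e4 : w' = 2 * j + 1 := by omega
  subst e4
  rw [show (2 * j + 2) / 2 - 1 = j by omega] at e3
  have hca : cmpl a' < q0 Φ Y := cmpl_lt h2
  obtain ⟨w'', a'', g1, g2, g3, g4, g5⟩ := hV (2 * j + 1) a' (by omega) h2
  have hp : (2 * j + 1) % 2 = 1 := by omega
  have k1 := g5 (2 * j + 1) a' (by omega) h2 (Or.inr (Or.inl ⟨hp, Or.inl ⟨rfl, rfl⟩⟩)) h4
  have k2 : ¬ V 0 (cmpl a') := by
    intro hcon
    have k3 := g5 0 (cmpl a') (by omega) hca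
      (Or.inr (Or.inl ⟨hp, Or.inr (Or.inr ⟨rfl, rfl⟩)⟩)) hcon
    omega
  have k3 : V 0 a' := (hlit a' h2).2 k2
  refine ⟨⟨a' / 2, e2⟩, ?_⟩
  have e5 : (if decide (V 0 (2 * (a' / 2) + 1)) = true then 1 else 0) = a' % 2 := by
    rcases Nat.mod_two_eq_zero_or_one a' with hp' | hp'
    · have e6 : 2 * (a' / 2) + 1 = cmpl a' := by unfold cmpl; rw [if_pos hp']; omega
      rw [e6, hp']
      simp [k2]
    · have e6 : 2 * (a' / 2) + 1 = a' := by omega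
      rw [e6, hp']
      simp [k3]
  simp only
  rw [e5]
  exact e3

theorem sat_iff_sol : (∃ α : Fin (Φ.n Y) → Bool, Φ.Sat Y α) ↔
    ∃ X, Sol (N0 Φ Y) (N0 Φ Y) (mem1 Φ Y) X :=
  ⟨sol_of_sat Φ Y, sat_of_sol Φ Y⟩

/-- The formula is satisfiable iff all jobs can be on time. -/
theorem sat_iff_schedule : (∃ α : Fin (Φ.n Y) → Bool, Φ.Sat Y α) ↔
    ∃ S : ℕ → ℝ,
    (∀ z < 5 * (2 * N0 Φ Y * N0 Φ Y), (R (N0 Φ Y) (N0 Φ Y) (mem1 Φ Y) z : ℝ) ≤ S z) ∧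
    (∀ z < 5 * (2 * N0 Φ Y * N0 Φ Y), S z + P (N0 Φ Y) (mem1 Φ Y) z ≤ D (N0 Φ Y) (N0 Φ Y) z) ∧
    ∀ z < 5 * (2 * N0 Φ Y * N0 Φ Y), ∀ z' < 5 * (2 * N0 Φ Y * N0 Φ Y), z ≠ z' →
      Disjoint (Set.Ico (S z) (S z + P (N0 Φ Y) (mem1 Φ Y) z))
        (Set.Ico (S z') (S z' + P (N0 Φ Y) (mem1 Φ Y) z')) := by
  rw [sat_iff_sol]
  have hN := N0_pos Φ Y
  have hE := N0_even Φ Y
  constructor
  · rintro ⟨X, hX⟩
    obtain ⟨h1, h2, h3⟩ := schedule_of_plc (core_complete hX hN hE) hN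
    refine ⟨fun z => (st (N0 Φ Y) (mem1 Φ Y) (ps (N0 Φ Y) (N0 Φ Y) (mem1 Φ Y) X) z : ℝ), ?_, ?_, ?_⟩
    · intro z hz
      simp only
      exact_mod_cast h1 z hz
    · intro z hz
      simp only
      exact_mod_cast h2 z hz
    · intro z hz z' hz' hne
      rw [Set.disjoint_left]
      rintro x ⟨x1, x2⟩ ⟨x3, x4⟩
      rcases h3 z hz z' hz' hne with h | h
      · have : ((st (N0 Φ Y) (mem1 Φ Y) (ps (N0 Φ Y) (N0 Φ Y) (mem1 Φ Y) X) z : ℝ) +
          (P (N0 Φ Y) (mem1 Φ Y) z : ℝ)) ≤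
          (st (N0 Φ Y) (mem1 Φ Y) (ps (N0 Φ Y) (N0 Φ Y) (mem1 Φ Y) X) z' : ℝ) := by
          exact_mod_cast h
        linarith
      · have : ((st (N0 Φ Y) (mem1 Φ Y) (ps (N0 Φ Y) (N0 Φ Y) (mem1 Φ Y) X) z' : ℝ) +
          (P (N0 Φ Y) (mem1 Φ Y) z' : ℝ)) ≤
          (st (N0 Φ Y) (mem1 Φ Y) (ps (N0 Φ Y) (N0 Φ Y) (mem1 Φ Y) X) z : ℝ) := by
          exact_mod_cast h
        linarith
  · rintro ⟨S, h1, h2, h3⟩
    obtain ⟨pos, hpos⟩ := plc_of_schedule hN hN S h1 h2 h3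
    obtain ⟨X, hX⟩ := core_sound hpos hN hN hE
    exact ⟨X, hX⟩

end Pool.Agent.Helper61.Sched
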